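import Mathlib
import Pool.Agent.W829.UC.Stmts

/-! UC-A1: sign of a determinant for planar path systems (MP_566bac_pr). -/

set_option autoImplicit false
set_option linter.all false

namespace Pool.Agent.W344.UCA1

open Pool.Agent.W829.UC Matrix Equiv

section Det
variable {n : Type} [Fintype n] [DecidableEq n]

theorem det_update (A : Matrix n n ℝ) (s b : n) :
    (A.updateRow s (Pi.single b 1)).det = ((Equiv.Perm.sign (swap s b) : ℤ) : ℝ) *
      (Matrix.of fun (x y : {x : n // x ≠ b}) => A (swap s b x) y).det := by
  set N := A.updateRow s (Pi.single b 1) with hN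
  have h1 := Matrix.det_permute (swap s b) N
  have hNb : ∀ c, N.submatrix (swap s b) id b c = (Pi.single b 1 : n → ℝ) c := by
    intro c
    simp [hN, Matrix.submatrix_apply, Equiv.swap_apply_right]
  have h2 := Matrix.twoBlockTriangular_det (N.submatrix (swap s b) id) (fun x => x ≠ b) (by
    intro i hi j hj
    have hi' : i = b := not_not.mp hi
    subst hi'
    rw [hNb]
    exact Pi.single_eq_of_ne hj _)
  have h3 : (toSquareBlockProp (N.submatrix (swap s b) id) fun i => ¬ (i ≠ b)).det = 1 := by
    have : Unique {a : n // ¬ (a ≠ b)} :=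
      { default := ⟨b, by simp⟩
        uniq := fun x => by
          apply Subtype.ext
          exact not_not.mp x.2 }
    rw [Matrix.det_unique]
    show N.submatrix (swap s b) id _ _ = 1
    have hd : ((default : {a : n // ¬ (a ≠ b)}) : n) = b := not_not.mp (default : {a : n // ¬ (a ≠ b)}).2
    rw [hd, hNb]
    simp
  have h4 : (toSquareBlockProp (N.submatrix (swap s b) id) fun i => i ≠ b) =
      (Matrix.of fun (x y : {x : n // x ≠ b}) => A (swap s b x) y) := by
    ext x y
    show N (swap s b x) y = A (swap s b x) y
    have hx : swap s b (x : n) ≠ s := by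
      intro h
      apply x.2
      have := congrArg (swap s b) h
      rwa [Equiv.swap_apply_left, Equiv.swap_apply_self] at this
    rw [hN, Matrix.updateRow_ne hx]
  rw [h3, mul_one, h4] at h2
  rw [h2] at h1
  have hs : ((Equiv.Perm.sign (swap s b) : ℤ) : ℝ) * ((Equiv.Perm.sign (swap s b) : ℤ) : ℝ) = 1 := by
    rcases Int.units_eq_one_or (Equiv.Perm.sign (swap s b)) with h | h <;> rw [h] <;> simp
  rw [h1, ← mul_assoc, hs, one_mul]

end Det

section Main

variable {α : Type} [DecidableEq α] (G : SimpleGraph α) (d : α → ℝ)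

/-- the matrix -/
noncomputable def Dm (J : Finset α) {ι : Type} (X T : ι → α) : Matrix (J ⊕ ι) (J ⊕ ι) ℝ :=
  Matrix.of fun (a b : J ⊕ ι) =>
      Em G d (Sum.elim (fun x : J => (x : α)) X a) (Sum.elim (fun x : J => (x : α)) T b)

/-- path systems with general index type -/
def PSg (J : Finset α) {ι : Type} (X T : ι → α) (π : Equiv.Perm ι) : Prop :=
  ∃ l : ι → List α,
    (∀ i, (X i :: (l i ++ [T (π i)])).IsChain G.Adj) ∧
    (∀ i, (l i).Nodup ∧ ∀ v ∈ l i, v ∈ J) ∧
    (∀ i j, i ≠ j → (l i).Disjoint (l j))

variable {ι : Type} [Fintype ι] [DecidableEq ι]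

theorem det_y (J : Finset α) (X T : ι → α) (s : ι) (y : J) :
    ((Dm G d J X T).updateRow (Sum.inr s) (Pi.single (Sum.inl y) 1)).det =
      - (Dm G d (J.erase y) (Function.update X s y) T).det := by
  rw [det_update]
  have hs : ((Equiv.Perm.sign (swap (Sum.inr s : J ⊕ ι) (Sum.inl y)) : ℤ) : ℝ) = -1 := by
    rw [Equiv.Perm.sign_swap (by simp)]
    simp
  rw [hs, neg_one_mul]
  congr 1
  let e : (J.erase (y : α)) ⊕ ι → {x : J ⊕ ι // x ≠ Sum.inl y} := fun a =>
    match a with
    | Sum.inl z => ⟨Sum.inl ⟨z, Finset.mem_of_mem_erase z.2⟩, by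
        intro h
        have h' := Sum.inl.inj h
        exact Finset.ne_of_mem_erase z.2 (congrArg Subtype.val h')⟩
    | Sum.inr i => ⟨Sum.inr i, by simp⟩
  have he : Function.Bijective e := by
    constructor
    · rintro (z | i) (z' | i') h
      · have h1 := congrArg Subtype.val h
        have h2 := Sum.inl.inj h1
        have h3 : (z : α) = z' := congrArg (fun w : J => (w : α)) h2
        rw [Subtype.ext h3]
      · have h1 := congrArg Subtype.val h
        cases h1
      · have h1 := congrArg Subtype.val h
        cases h1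
      · have h1 := congrArg Subtype.val h
        rw [Sum.inr.inj h1]
    · rintro ⟨(z | i), hx⟩
      · refine ⟨Sum.inl ⟨z, Finset.mem_erase.mpr ⟨?_, z.2⟩⟩, rfl⟩
        intro h
        apply hx
        rw [Subtype.ext h]
      · exact ⟨Sum.inr i, rfl⟩
  let E : (J.erase (y : α)) ⊕ ι ≃ {x : J ⊕ ι // x ≠ Sum.inl y} := Equiv.ofBijective e he
  rw [← Matrix.det_submatrix_equiv_self E]
  congr 1
  ext a b
  show Em G d (Sum.elim (fun x : J => (x : α)) X (swap (Sum.inr s) (Sum.inl y) (e a : J ⊕ ι)))
      (Sum.elim (fun x : J => (x : α)) T (e b : J ⊕ ι)) = Em G d _ _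
  congr 1
  · rcases a with z | i
    · have h1 : (Sum.inl ⟨z, Finset.mem_of_mem_erase z.2⟩ : J ⊕ ι) ≠ Sum.inl y := by
        intro h
        exact Finset.ne_of_mem_erase z.2 (congrArg Subtype.val (Sum.inl.inj h))
      show Sum.elim (fun x : J => (x : α)) X (swap (Sum.inr s) (Sum.inl y)
        (Sum.inl ⟨z, Finset.mem_of_mem_erase z.2⟩)) = z
      rw [Equiv.swap_apply_of_ne_of_ne (by simp) h1]
      rfl
    · show Sum.elim (fun x : J => (x : α)) X (swap (Sum.inr s) (Sum.inl y) (Sum.inr i)) =
        Function.update X s y i
      by_cases hi : i = s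
      · subst hi
        rw [Equiv.swap_apply_left, Function.update_self]
        rfl
      · rw [Equiv.swap_apply_of_ne_of_ne (by simpa using hi) (by simp), Function.update_of_ne hi]
        rfl
  · rcases b with z | i <;> rfl

theorem det_j (J : Finset α) (X T : ι → α) (s j : ι) :
    ((Dm G d J X T).updateRow (Sum.inr s) (Pi.single (Sum.inr j) 1)).det =
      ((Equiv.Perm.sign (swap s j) : ℤ) : ℝ) * (Dm G d J (fun x : {x : ι // x ≠ j} => X (swap s j x))
        (fun x : {x : ι // x ≠ j} => T x)).det := by
  rw [det_update]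
  have hs : Equiv.Perm.sign (swap (Sum.inr s : J ⊕ ι) (Sum.inr j)) =
      Equiv.Perm.sign (swap s j) := by
    by_cases h : s = j
    · subst h; simp
    · rw [Equiv.Perm.sign_swap h, Equiv.Perm.sign_swap (by simpa using h)]
  rw [hs]
  congr 1
  let e : J ⊕ {x : ι // x ≠ j} → {x : J ⊕ ι // x ≠ Sum.inr j} := fun a =>
    match a with
    | Sum.inl z => ⟨Sum.inl z, by simp⟩
    | Sum.inr i => ⟨Sum.inr i, by simpa using i.2⟩
  have he : Function.Bijective e := by
    constructor
    · rintro (z | i) (z' | i') h
      · rw [Sum.inl.inj (congrArg Subtype.val h)]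
      · have h1 := congrArg Subtype.val h
        cases h1
      · have h1 := congrArg Subtype.val h
        cases h1
      · have h1 := Sum.inr.inj (congrArg Subtype.val h)
        rw [Subtype.ext h1]
    · rintro ⟨(z | i), hx⟩
      · exact ⟨Sum.inl z, rfl⟩
      · exact ⟨Sum.inr ⟨i, fun h => hx (by rw [h])⟩, rfl⟩
  let E : J ⊕ {x : ι // x ≠ j} ≃ {x : J ⊕ ι // x ≠ Sum.inr j} := Equiv.ofBijective e he
  rw [← Matrix.det_submatrix_equiv_self E]
  congr 1
  ext a b
  show Em G d (Sum.elim (fun x : J => (x : α)) X (swap (Sum.inr s) (Sum.inr j) (e a : J ⊕ ι)))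
      (Sum.elim (fun x : J => (x : α)) T (e b : J ⊕ ι)) = Em G d _ _
  congr 1
  · rcases a with z | i
    · show Sum.elim (fun x : J => (x : α)) X (swap (Sum.inr s) (Sum.inr j) (Sum.inl z)) = z
      rw [Equiv.swap_apply_of_ne_of_ne (by simp) (by simp)]
      rfl
    · show Sum.elim (fun x : J => (x : α)) X (swap (Sum.inr s) (Sum.inr j) (Sum.inr i)) =
        X (swap s j i)
      have hsw : (swap (Sum.inr s) (Sum.inr j) (Sum.inr i) : J ⊕ ι) = Sum.inr (swap s j i) := by
        by_cases h1 : (i : ι) = s
        · rw [h1, Equiv.swap_apply_left, Equiv.swap_apply_left]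
        · rw [Equiv.swap_apply_of_ne_of_ne h1 i.2,
            Equiv.swap_apply_of_ne_of_ne (by simpa using h1) (by simpa using i.2)]
      rw [hsw]
      rfl
  · rcases b with z | i <;> rfl

/-- expansion of the determinant along the row of the start `s` -/
theorem det_expand (J : Finset α) (X T : ι → α) (s : ι) :
    (Dm G d J X T).det =
      ∑ y : J, Em G d (X s) y * (- (Dm G d (J.erase y) (Function.update X s y) T).det) +
      ∑ j : ι, Em G d (X s) (T j) * (((Equiv.Perm.sign (swap s j) : ℤ) : ℝ) *
        (Dm G d J (fun x : {x : ι // x ≠ j} => X (swap s j x))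
          (fun x : {x : ι // x ≠ j} => T x)).det) := by
  rw [Matrix.det_eq_sum_mul_adjugate_row (Dm G d J X T) (Sum.inr s), Fintype.sum_sum_type]
  congr 1
  · refine Finset.sum_congr rfl fun y _ => ?_
    rw [Matrix.adjugate_apply, det_y]
    rfl
  · refine Finset.sum_congr rfl fun j _ => ?_
    rw [Matrix.adjugate_apply, det_j]
    rfl

variable {G}

/-- prepend a vertex -/
theorem ext_y {J : Finset α} {X T : ι → α} {s : ι} {y : α} (hy : y ∈ J) (hadj : G.Adj (X s) y)
    {π : Equiv.Perm ι} (h : PSg G (J.erase y) (Function.update X s y) T π) : PSg G J X T π := by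
  obtain ⟨l, h1, h2, h3⟩ := h
  refine ⟨Function.update l s (y :: l s), ?_, ?_, ?_⟩
  · intro i
    by_cases hi : i = s
    · subst hi
      have := h1 i
      rw [Function.update_self] at this ⊢
      exact List.isChain_cons_cons.mpr ⟨hadj, this⟩
    · have := h1 i
      rw [Function.update_of_ne hi] at this ⊢
      exact this
  · intro i
    by_cases hi : i = s
    · subst hi
      rw [Function.update_self]
      refine ⟨List.nodup_cons.mpr ⟨fun hm => ?_, (h2 i).1⟩, ?_⟩
      · exact Finset.ne_of_mem_erase ((h2 i).2 y hm) rfl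
      · intro v hv
        rcases List.mem_cons.mp hv with rfl | hv
        · exact hy
        · exact Finset.mem_of_mem_erase ((h2 i).2 v hv)
    · rw [Function.update_of_ne hi]
      exact ⟨(h2 i).1, fun v hv => Finset.mem_of_mem_erase ((h2 i).2 v hv)⟩
  · have key : ∀ i, i ≠ s → (l i).Disjoint (y :: l s) := by
      intro i hi v hv hv'
      rcases List.mem_cons.mp hv' with rfl | hv'
      · exact Finset.ne_of_mem_erase ((h2 i).2 v hv) rfl
      · exact h3 i s hi hv hv'
    intro i j hij
    by_cases hi : i = s
    · subst hi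
      rw [Function.update_self, Function.update_of_ne (Ne.symm hij)]
      exact (key j (Ne.symm hij)).symm
    · by_cases hj : j = s
      · subst hj
        rw [Function.update_self, Function.update_of_ne hi]
        exact key i hi
      · rw [Function.update_of_ne hi, Function.update_of_ne hj]
        exact h3 i j hij

/-- add a direct edge to the end `T j` -/
theorem ext_j {J : Finset α} {X T : ι → α} {s j : ι} (hadj : G.Adj (X s) (T j))
    {π : Equiv.Perm {x : ι // x ≠ j}}
    (h : PSg G J (fun x : {x : ι // x ≠ j} => X (swap s j x)) (fun x : {x : ι // x ≠ j} => T x) π) :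
    PSg G J X T (Equiv.Perm.ofSubtype π * swap s j) := by
  obtain ⟨l, h1, h2, h3⟩ := h
  obtain ⟨L, hL1, hL2⟩ : ∃ L : ι → List α, (∀ i (hi : swap s j i ≠ j), L i = l ⟨swap s j i, hi⟩) ∧
      (∀ i, ¬ (swap s j i ≠ j) → L i = []) :=
    ⟨fun i => if hi : swap s j i ≠ j then l ⟨swap s j i, hi⟩ else [],
      fun i hi => dif_pos hi, fun i hi => dif_neg hi⟩
  refine ⟨L, ?_, ?_, ?_⟩
  · intro i
    by_cases hi : swap s j i ≠ j
    · rw [hL1 i hi]
      have := h1 ⟨swap s j i, hi⟩
      simp only [Equiv.swap_apply_self] at this
      rw [Equiv.Perm.mul_apply, Equiv.Perm.ofSubtype_apply_of_mem π hi]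
      exact this
    · rw [hL2 i hi]
      have hi' : swap s j i = j := not_not.mp hi
      have his : i = s := by
        have := congrArg (swap s j) hi'
        rwa [Equiv.swap_apply_self, Equiv.swap_apply_right] at this
      subst his
      rw [Equiv.Perm.mul_apply, Equiv.swap_apply_left,
        Equiv.Perm.ofSubtype_apply_of_not_mem π (by simp)]
      simpa using hadj
  · intro i
    by_cases hi : swap s j i ≠ j
    · rw [hL1 i hi]
      exact h2 _
    · rw [hL2 i hi]
      simp
  · intro i i' hii
    by_cases hi : swap s j i ≠ j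
    · by_cases hi' : swap s j i' ≠ j
      · rw [hL1 i hi, hL1 i' hi']
        refine h3 _ _ ?_
        intro he
        apply hii
        have := congrArg Subtype.val he
        exact (swap s j).injective this
      · rw [hL2 i' hi']
        exact List.disjoint_nil_right _
    · rw [hL2 i hi]
      exact List.disjoint_nil_left _

theorem PSg_empty [IsEmpty ι] (J : Finset α) (X T : ι → α) (π : Equiv.Perm ι) : PSg G J X T π :=
  ⟨fun i => isEmptyElim i, fun i => isEmptyElim i, fun i => isEmptyElim i, fun i => isEmptyElim i⟩

/-- the two statements -/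
def Good (G : SimpleGraph α) (d : α → ℝ) (J : Finset α) {ι : Type} [Fintype ι] [DecidableEq ι]
    (X T : ι → α) : Prop :=
  (Nonempty ι → (∀ π, ¬ PSg G J X T π) → (Dm G d J X T).det = 0) ∧
  ((∀ π, PSg G J X T π → π = 1) → PSg G J X T 1 →
    0 < (-1 : ℝ) ^ (Fintype.card ι) * (Dm G d J X T).det)

theorem Good.nonneg {d : α → ℝ} {J : Finset α} {X T : ι → α} (h : Good G d J X T)
    (hπ : ∀ π, PSg G J X T π → π = 1) : 0 ≤ (-1 : ℝ) ^ (Fintype.card ι) * (Dm G d J X T).det := by
  by_cases hex : ∃ π, PSg G J X T π
  · obtain ⟨π, h1⟩ := hex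
    have h2 := hπ π h1
    subst h2
    exact (h.2 hπ h1).le
  · rcases isEmpty_or_nonempty ι with he | he
    · exact absurd ⟨1, PSg_empty J X T 1⟩ hex
    · rw [h.1 he (fun π hp => hex ⟨π, hp⟩), mul_zero]

open Classical in
theorem Em_of_ne {d : α → ℝ} {x y : α} (h : x ≠ y) : Em G d x y = if G.Adj x y then -1 else 0 := by
  unfold Em
  rw [if_neg h]

theorem neg_one_sq_pow (n : ℕ) : (-1 : ℝ) ^ (n + 1) * (-1) = (-1) ^ n := by
  rw [pow_succ]; ring

theorem good_of (G : SimpleGraph α) (d : α → ℝ) : ∀ (n : ℕ) (J : Finset α) (ι : Type) [Fintype ι] [DecidableEq ι]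
    (X T : ι → α), J.card + Fintype.card ι = n →
    (∀ K : Finset α, K ⊆ J → 0 < (Matrix.of fun (x y : K) => Em G d (x : α) (y : α)).det) →
    Function.Injective X → Function.Injective T →
    (∀ i, X i ∉ J) → (∀ i, T i ∉ J) → (∀ i j, X i ≠ T j) → Good G d J X T := by
  intro n
  induction n with
  | zero =>
    intro J ι _ _ X T hn hpos hX hT hXJ hTJ hXT
    have hι : IsEmpty ι := Fintype.card_eq_zero_iff.mp (by omega)
    refine ⟨fun hne => absurd hne (not_nonempty_iff.mpr hι), fun _ _ => ?_⟩
    rw [Fintype.card_eq_zero, pow_zero, one_mul,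
      ← Matrix.det_submatrix_equiv_self (Equiv.sumEmpty J ι).symm]
    exact hpos J (Finset.Subset.refl _)
  | succ n ih =>
    intro J ι _ _ X T hn hpos hX hT hXJ hTJ hXT
    rcases isEmpty_or_nonempty ι with hι | ⟨⟨s⟩⟩
    · refine ⟨fun hne => absurd hne (not_nonempty_iff.mpr hι), fun _ _ => ?_⟩
      rw [Fintype.card_eq_zero, pow_zero, one_mul,
        ← Matrix.det_submatrix_equiv_self (Equiv.sumEmpty J ι).symm]
      exact hpos J (Finset.Subset.refl _)
    -- the smaller problems
    have Gy : ∀ y ∈ J, Good G d (J.erase y) (Function.update X s y) T := by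
      intro y hy
      refine ih (J.erase y) ι (Function.update X s y) T ?_ ?_ ?_ hT ?_ ?_ ?_
      · have := Finset.card_erase_of_mem hy
        have h1 : 0 < J.card := Finset.card_pos.mpr ⟨y, hy⟩
        omega
      · intro K hK
        exact hpos K (hK.trans (Finset.erase_subset _ _))
      · intro i j hij
        by_cases hi : i = s
        · by_cases hj : j = s
          · rw [hi, hj]
          · subst hi
            rw [Function.update_self, Function.update_of_ne hj] at hij
            exact absurd (hij ▸ hy) (hXJ j)
        · by_cases hj : j = s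
          · subst hj
            rw [Function.update_self, Function.update_of_ne hi] at hij
            exact absurd (hij ▸ hy) (hXJ i)
          · rw [Function.update_of_ne hj, Function.update_of_ne hi] at hij
            exact hX hij
      · intro i hi
        by_cases his : i = s
        · subst his
          rw [Function.update_self] at hi
          exact Finset.notMem_erase y J hi
        · rw [Function.update_of_ne his] at hi
          exact hXJ i (Finset.mem_of_mem_erase hi)
      · intro i hi
        exact hTJ i (Finset.mem_of_mem_erase hi)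
      · intro i j hij
        by_cases his : i = s
        · subst his
          rw [Function.update_self] at hij
          exact hTJ j (hij ▸ hy)
        · rw [Function.update_of_ne his] at hij
          exact hXT i j hij
    have hcard : ∀ j : ι, Fintype.card {x : ι // x ≠ j} + 1 = Fintype.card ι := by
      intro j
      rw [Fintype.card_subtype_compl (fun x => x = j), Fintype.card_subtype_eq]
      have : 0 < Fintype.card ι := Fintype.card_pos_iff.mpr ⟨s⟩
      omega
    have Gj : ∀ j : ι, Good G d J (fun x : {x : ι // x ≠ j} => X (swap s j x))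
        (fun x : {x : ι // x ≠ j} => T x) := by
      intro j
      refine ih J {x : ι // x ≠ j} _ _ ?_ hpos ?_ ?_ ?_ ?_ ?_
      · have := hcard j
        omega
      · intro a b hab
        exact Subtype.ext ((swap s j).injective (hX hab))
      · intro a b hab
        exact Subtype.ext (hT hab)
      · intro i; exact hXJ _
      · intro i; exact hTJ _
      · intro i j; exact hXT _ _
    have hne : ∀ y ∈ J, X s ≠ y := by
      intro y hy h
      apply hXJ s
      rw [h]
      exact hy
    have Ey1 : ∀ y ∈ J, G.Adj (X s) y → Em G d (X s) y = -1 := fun y hy h => by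
      rw [Em_of_ne (hne y hy), if_pos h]
    have Ey0 : ∀ y ∈ J, ¬ G.Adj (X s) y → Em G d (X s) y = 0 := fun y hy h => by
      rw [Em_of_ne (hne y hy), if_neg h]
    have Ej1 : ∀ j, G.Adj (X s) (T j) → Em G d (X s) (T j) = -1 := fun j h => by
      rw [Em_of_ne (hXT s j), if_pos h]
    have Ej0 : ∀ j, ¬ G.Adj (X s) (T j) → Em G d (X s) (T j) = 0 := fun j h => by
      rw [Em_of_ne (hXT s j), if_neg h]
    constructor
    · -- no path system
      intro _ hno
      rw [det_expand G d J X T s]
      have hA : ∀ y : J, Em G d (X s) y *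
          (- (Dm G d (J.erase y) (Function.update X s y) T).det) = 0 := by
        intro y
        by_cases hadj : G.Adj (X s) y
        · rw [(Gy y y.2).1 ⟨s⟩ (fun π hπ => hno π (ext_y y.2 hadj hπ))]
          simp
        · rw [Ey0 y y.2 hadj, zero_mul]
      have hB : ∀ j : ι, Em G d (X s) (T j) * (((Equiv.Perm.sign (swap s j) : ℤ) : ℝ) *
          (Dm G d J (fun x : {x : ι // x ≠ j} => X (swap s j x))
            (fun x : {x : ι // x ≠ j} => T x)).det) = 0 := by
        intro j
        by_cases hadj : G.Adj (X s) (T j)
        · rcases isEmpty_or_nonempty {x : ι // x ≠ j} with he | he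
          · exact absurd (ext_j hadj (PSg_empty J _ _ 1)) (hno _)
          · rw [(Gj j).1 he (fun π hπ => hno _ (ext_j hadj hπ))]
            simp
        · rw [Ej0 j hadj, zero_mul]
      rw [Finset.sum_eq_zero (fun y _ => hA y), Finset.sum_eq_zero (fun j _ => hB j), add_zero]
    · intro h1 h2
      rw [det_expand G d J X T s, mul_add, Finset.mul_sum, Finset.mul_sum]
      -- value of the terms
      have vA : ∀ y : J, G.Adj (X s) y → (-1 : ℝ) ^ (Fintype.card ι) * (Em G d (X s) y *
          (- (Dm G d (J.erase y) (Function.update X s y) T).det)) =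
          (-1 : ℝ) ^ (Fintype.card ι) * (Dm G d (J.erase y) (Function.update X s y) T).det := by
        intro y hadj
        rw [Ey1 y y.2 hadj]
        ring
      have vB : G.Adj (X s) (T s) → (-1 : ℝ) ^ (Fintype.card ι) * (Em G d (X s) (T s) *
          (((Equiv.Perm.sign (swap s s) : ℤ) : ℝ) *
          (Dm G d J (fun x : {x : ι // x ≠ s} => X (swap s s x))
            (fun x : {x : ι // x ≠ s} => T x)).det)) =
          (-1 : ℝ) ^ (Fintype.card {x : ι // x ≠ s}) *
          (Dm G d J (fun x : {x : ι // x ≠ s} => X (swap s s x))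
            (fun x : {x : ι // x ≠ s} => T x)).det := by
        intro hadj
        rw [Ej1 s hadj, ← hcard s, pow_succ]
        simp
      have uy : ∀ y : J, G.Adj (X s) y → ∀ π, PSg G (J.erase y) (Function.update X s y) T π →
          π = 1 := fun y hadj π hπ => h1 π (ext_y y.2 hadj hπ)
      have us : G.Adj (X s) (T s) → ∀ π, PSg G J (fun x : {x : ι // x ≠ s} => X (swap s s x))
            (fun x : {x : ι // x ≠ s} => T x) π → π = 1 := by
        intro hadj π hπ
        have h3 := h1 _ (ext_j hadj hπ)
        rw [Equiv.swap_self] at h3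
        have h4 : Equiv.Perm.ofSubtype π = 1 := by
          rw [← h3]; rfl
        exact Equiv.Perm.ofSubtype_injective (h4.trans (map_one _).symm)
      have nA : ∀ y ∈ (Finset.univ : Finset J), 0 ≤ (-1 : ℝ) ^ (Fintype.card ι) * (Em G d (X s) y *
          (- (Dm G d (J.erase y) (Function.update X s y) T).det)) := by
        intro y _
        by_cases hadj : G.Adj (X s) y
        · rw [vA y hadj]
          exact (Gy y y.2).nonneg (uy y hadj)
        · rw [Ey0 y y.2 hadj]
          simp
      have nB : ∀ j ∈ (Finset.univ : Finset ι), 0 ≤ (-1 : ℝ) ^ (Fintype.card ι) *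
          (Em G d (X s) (T j) * (((Equiv.Perm.sign (swap s j) : ℤ) : ℝ) *
          (Dm G d J (fun x : {x : ι // x ≠ j} => X (swap s j x))
            (fun x : {x : ι // x ≠ j} => T x)).det)) := by
        intro j _
        by_cases hadj : G.Adj (X s) (T j)
        · by_cases hjs : j = s
          · subst hjs
            rw [vB hadj]
            exact (Gj j).nonneg (us hadj)
          · rw [(Gj j).1 ⟨⟨s, Ne.symm hjs⟩⟩ (fun π hπ => ?_)]
            · simp
            · have h3 := h1 _ (ext_j hadj hπ)
              have h4 := congrArg (fun σ : Equiv.Perm ι => σ s) h3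
              simp only [Equiv.Perm.mul_apply, Equiv.swap_apply_left, Equiv.Perm.one_apply] at h4
              rw [Equiv.Perm.ofSubtype_apply_of_not_mem π (by simp)] at h4
              exact hjs h4
        · rw [Ej0 j hadj]
          simp
      obtain ⟨l, c1, c2, c3⟩ := h2
      rcases hls : l s with _ | ⟨y, l'⟩
      · -- direct edge
        have c := c1 s
        rw [hls] at c
        have hadj : G.Adj (X s) (T s) := by simpa using c
        refine add_pos_of_nonneg_of_pos (Finset.sum_nonneg nA) (Finset.sum_pos' nB
          ⟨s, Finset.mem_univ _, ?_⟩)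
        rw [vB hadj]
        refine (Gj s).2 (us hadj) ⟨fun x => l x, ?_, fun x => c2 x, ?_⟩
        · intro i
          have := c1 i
          rw [Equiv.swap_self]
          exact this
        · intro i j hij
          exact c3 i j (fun h => hij (Subtype.ext h))
      · -- first step to `y`
        have c := c1 s
        rw [hls] at c
        have hyJ : y ∈ J := (c2 s).2 y (by rw [hls]; simp)
        have c' : (X s :: y :: (l' ++ [T ((1 : Equiv.Perm ι) s)])).IsChain G.Adj := c
        obtain ⟨hadj, hch⟩ := List.isChain_cons_cons.mp c'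
        refine add_pos_of_pos_of_nonneg (Finset.sum_pos' nA
          ⟨⟨y, hyJ⟩, Finset.mem_univ _, ?_⟩) (Finset.sum_nonneg nB)
        rw [vA ⟨y, hyJ⟩ hadj]
        have hnd := (c2 s).1
        rw [hls] at hnd
        refine (Gy y hyJ).2 (uy ⟨y, hyJ⟩ hadj) ⟨Function.update l s l', ?_, ?_, ?_⟩
        · intro i
          by_cases hi : i = s
          · subst hi
            rw [Function.update_self, Function.update_self]
            exact hch
          · rw [Function.update_of_ne hi, Function.update_of_ne hi]
            exact c1 i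
        · intro i
          by_cases hi : i = s
          · subst hi
            rw [Function.update_self]
            refine ⟨(List.nodup_cons.mp hnd).2, fun v hv => Finset.mem_erase.mpr ⟨?_, ?_⟩⟩
            · rintro rfl
              exact (List.nodup_cons.mp hnd).1 hv
            · exact (c2 i).2 v (by rw [hls]; exact List.mem_cons_of_mem _ hv)
          · rw [Function.update_of_ne hi]
            refine ⟨(c2 i).1, fun v hv => Finset.mem_erase.mpr ⟨?_, (c2 i).2 v hv⟩⟩
            rintro rfl
            exact c3 i s hi hv (by rw [hls]; simp)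
        · intro i j hij
          have hsub : ∀ i, ∀ v ∈ Function.update l s l' i, v ∈ l i := by
            intro i v hv
            by_cases hi : i = s
            · subst hi
              rw [Function.update_self] at hv
              rw [hls]; exact List.mem_cons_of_mem _ hv
            · rwa [Function.update_of_ne hi] at hv
          intro v hv hv'
          exact c3 i j hij (hsub i v hv) (hsub j v hv')

end Main

theorem main : S_A1 := by
  intro α _ G d J hpos k X T hX hT hXJ hTJ hXT h1 h2
  have := (good_of G d (J.card + Fintype.card (Fin k)) J (Fin k) X T rfl hpos hX hT hXJ hTJ hXT).2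
    h1 h2
  rw [Fintype.card_fin] at this
  exact this

end Pool.Agent.W344.UCA1
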