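import Mathlib
import Pool.Agent.W829.UC.Stmts

/-! UC-A2: positive definiteness of the Dirichlet Laplacian on a finite subset of an infinite
cluster (MP_566bac_pr). -/

set_option autoImplicit false
set_option linter.all false

namespace Pool.Agent.W344.UCA2

open Pool.Agent.W829.UC Pool.Agent.H978R2 Matrix

section
variable (G : SimpleGraph (ℤ × ℤ))

open Classical in
/-- adjacency indicator -/
noncomputable def ad (x y : ℤ × ℤ) : ℝ := if G.Adj x y then 1 else 0

theorem ad_comm (x y : ℤ × ℤ) : ad G x y = ad G y x := by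
  unfold ad
  by_cases h : G.Adj x y
  · rw [if_pos h, if_pos h.symm]
  · rw [if_neg h, if_neg (fun h' => h h'.symm)]

theorem ad_nonneg (x y : ℤ × ℤ) : 0 ≤ ad G x y := by
  unfold ad
  split_ifs <;> norm_num

open Classical in
theorem Em_eq (d : ℤ × ℤ → ℝ) (x y : ℤ × ℤ) :
    Em G d x y = (if x = y then d x else 0) - ad G x y := by
  unfold Em ad
  by_cases h : x = y
  · subst h
    simp
  · simp only [if_neg h]
    split_ifs <;> simp

theorem mem_nb {x y : ℤ × ℤ} (h : lat.Adj x y) : y ∈ nb x := by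
  rw [lat_adj] at h
  obtain ⟨a, b⟩ := x
  obtain ⟨c, d⟩ := y
  simp only [nb, Finset.mem_insert, Finset.mem_singleton, Prod.mk.injEq]
  simp only at h
  omega

end

theorem main : S_A2 := by
  classical
  intro G C hG hC hconn K hK
  set N : Finset (ℤ × ℤ) := K ∪ K.biUnion nb with hN
  have hKN : K ⊆ N := Finset.subset_union_left
  have hadjN : ∀ x ∈ K, ∀ y, G.Adj x y → y ∈ N := by
    intro x hx y hxy
    exact Finset.mem_union_right _ (Finset.mem_biUnion.mpr ⟨x, hx, mem_nb (hG hxy)⟩)
  have hdg : ∀ x ∈ K, dg G x = ∑ y ∈ N, ad G x y := by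
    intro x hx
    unfold dg ad
    rw [Finset.sum_boole]
    congr 2
    ext y
    simp only [Finset.mem_filter]
    constructor
    · rintro ⟨_, h⟩; exact ⟨hadjN x hx y h, h⟩
    · rintro ⟨_, h⟩; exact ⟨mem_nb (hG h), h⟩
  have hpd : (Matrix.of fun (x y : K) => Em G (dg G) (x : ℤ × ℤ) (y : ℤ × ℤ)).PosDef := by
    refine Matrix.PosDef.of_dotProduct_mulVec_pos ?_ ?_
    · ext x y
      simp only [Matrix.conjTranspose_apply, Matrix.of_apply, star_trivial]
      rw [Em_eq, Em_eq, ad_comm]
      by_cases h : (x : ℤ × ℤ) = y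
      · rw [h]
      · rw [if_neg h, if_neg (Ne.symm h)]
    · intro f hf
      let F : ℤ × ℤ → ℝ := fun x => if h : x ∈ K then f ⟨x, h⟩ else 0
      have hF0 : ∀ x, x ∉ K → F x = 0 := fun x hx => dif_neg hx
      have hFK : ∀ x : K, F x = f x := fun x => dif_pos x.2
      have e1 : star f ⬝ᵥ ((Matrix.of fun (x y : K) => Em G (dg G) (x : ℤ × ℤ) (y : ℤ × ℤ)) *ᵥ f) =
          ∑ x ∈ K, F x * ∑ y ∈ K, Em G (dg G) x y * F y := by
        simp only [dotProduct, Matrix.mulVec, Matrix.of_apply, star_trivial, Pi.star_apply]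
        rw [← Finset.sum_coe_sort K (fun x => F x * ∑ y ∈ K, Em G (dg G) x y * F y)]
        refine Finset.sum_congr rfl fun x _ => ?_
        rw [hFK, ← Finset.sum_coe_sort K (fun y => Em G (dg G) x y * F y)]
        congr 1
        refine Finset.sum_congr rfl fun y _ => ?_
        rw [hFK]
      have e2 : ∀ x ∈ K, ∑ y ∈ K, Em G (dg G) x y * F y = ∑ y ∈ N, ad G x y * (F x - F y) := by
        intro x hx
        have h1 : ∑ y ∈ K, Em G (dg G) x y * F y = ∑ y ∈ N, Em G (dg G) x y * F y :=
          Finset.sum_subset hKN (fun y _ hy => by rw [hF0 y hy, mul_zero])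
        rw [h1]
        simp only [Em_eq, sub_mul, mul_sub, Finset.sum_sub_distrib, ite_mul, zero_mul]
        rw [Finset.sum_ite_eq, if_pos (hKN hx), ← Finset.sum_mul, hdg x hx]
      have e3 : ∑ x ∈ K, F x * ∑ y ∈ K, Em G (dg G) x y * F y =
          ∑ x ∈ N, F x * ∑ y ∈ N, ad G x y * (F x - F y) := by
        rw [← Finset.sum_subset hKN (fun x _ hx => by rw [hF0 x hx, zero_mul])]
        exact Finset.sum_congr rfl fun x hx => by rw [e2 x hx]
      have e4 : 2 * ∑ x ∈ N, F x * ∑ y ∈ N, ad G x y * (F x - F y) =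
          ∑ x ∈ N, ∑ y ∈ N, ad G x y * (F x - F y) ^ 2 := by
        have h1 : ∑ x ∈ N, F x * ∑ y ∈ N, ad G x y * (F x - F y) =
            ∑ x ∈ N, ∑ y ∈ N, ad G x y * (F x * (F x - F y)) := by
          refine Finset.sum_congr rfl fun x _ => ?_
          rw [Finset.mul_sum]
          exact Finset.sum_congr rfl fun y _ => by ring
        have h2 : ∑ x ∈ N, F x * ∑ y ∈ N, ad G x y * (F x - F y) =
            ∑ x ∈ N, ∑ y ∈ N, ad G x y * (F y * (F y - F x)) := by
          rw [h1, Finset.sum_comm]
          refine Finset.sum_congr rfl fun x _ => Finset.sum_congr rfl fun y _ => ?_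
          rw [ad_comm]
        rw [two_mul]
        nth_rewrite 1 [h1]
        rw [h2, ← Finset.sum_add_distrib]
        refine Finset.sum_congr rfl fun x _ => ?_
        rw [← Finset.sum_add_distrib]
        exact Finset.sum_congr rfl fun y _ => by ring
      have hnn : ∀ x ∈ N, ∀ y ∈ N, 0 ≤ ad G x y * (F x - F y) ^ 2 := fun x _ y _ =>
        mul_nonneg (ad_nonneg G x y) (sq_nonneg _)
      have hnn' : ∀ x ∈ N, 0 ≤ ∑ y ∈ N, ad G x y * (F x - F y) ^ 2 := fun x hx =>
        Finset.sum_nonneg (hnn x hx)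
      rw [e1, e3]
      by_contra hcon
      have h0 : ∑ x ∈ N, ∑ y ∈ N, ad G x y * (F x - F y) ^ 2 = 0 := by
        refine le_antisymm ?_ (Finset.sum_nonneg hnn')
        linarith [not_lt.mp hcon]
      have hstep : ∀ x ∈ K, ∀ y, G.Adj x y → F x = F y := by
        intro x hx y hxy
        have h1 := (Finset.sum_eq_zero_iff_of_nonneg hnn').mp h0 x (hKN hx)
        have h2 := (Finset.sum_eq_zero_iff_of_nonneg (hnn x (hKN hx))).mp h1 y (hadjN x hx y hxy)
        have h3 : ad G x y = 1 := if_pos hxy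
        rw [h3, one_mul] at h2
        have h4 := pow_eq_zero_iff (two_ne_zero) |>.mp h2
        linarith
      have hwalk : ∀ (x y : ℤ × ℤ) (w : G.Walk x y), y ∉ K → F x = 0 := by
        intro x y w
        induction w with
        | nil => intro h; exact hF0 _ h
        | @cons u v z hadj w ih =>
          intro h
          have h1 := ih h
          by_cases hu : u ∈ K
          · rw [hstep u hu v hadj, h1]
          · exact hF0 u hu
      apply hf
      ext x
      have hxC := hK x x.2
      obtain ⟨y, hyC, hyK⟩ : ∃ y ∈ C, y ∉ K := by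
        by_contra h
        push Not at h
        exact hC (K.finite_toSet.subset h)
      obtain ⟨w⟩ := hconn x hxC y hyC
      rw [← hFK]
      exact hwalk x y w hyK
  exact hpd.det_pos

end Pool.Agent.W344.UCA2
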