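import Mathlib
import Pool.Agent.W829.UC.Stmts

/-! UC-C3: properties of the minimal cost fm (MP_566bac_pr). -/

set_option autoImplicit false
set_option linter.all false

namespace Pool.Agent.W344.UCC3

open Pool.Agent.W829.UC

section
variable {α : Type} [DecidableEq α] (G : SimpleGraph α) (U : Set α)

open Classical in
/-- the costing vertices -/
noncomputable def cs (W : Finset α) : Finset α :=
  W.filter (fun x => ∃ y, y ∈ U ∧ G.Adj x y ∧ y ∉ W)

theorem cst_eq (W : Finset α) : cst G U W = (cs G U W).card := rfl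

open Classical in
theorem mem_cs {W : Finset α} {x : α} :
    x ∈ cs G U W ↔ x ∈ W ∧ ∃ y, y ∈ U ∧ G.Adj x y ∧ y ∉ W := by
  unfold cs
  rw [Finset.mem_filter]

theorem cs_subset (W : Finset α) : cs G U W ⊆ W := fun x hx => ((mem_cs G U).mp hx).1

theorem cst_le_card (W : Finset α) : cst G U W ≤ W.card := by
  rw [cst_eq]
  exact Finset.card_le_card (cs_subset G U W)

theorem cst_union (W B : Finset α) : cst G U (W ∪ B) ≤ cst G U W + B.card := by
  rw [cst_eq, cst_eq]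
  refine (Finset.card_le_card ?_).trans (Finset.card_union_le (cs G U W) B)
  intro x hx
  rw [mem_cs] at hx
  obtain ⟨h1, y, h2, h3, h4⟩ := hx
  rw [Finset.mem_union] at h1 h4 ⊢
  rcases h1 with h1 | h1
  · left
    rw [mem_cs]
    exact ⟨h1, y, h2, h3, fun h => h4 (Or.inl h)⟩
  · exact Or.inr h1

theorem submod (W W' : Finset α) :
    cst G U (W ∪ W') + cst G U (W ∩ W') ≤ cst G U W + cst G U W' := by
  rw [cst_eq, cst_eq, cst_eq, cst_eq]
  rw [← Finset.card_union_add_card_inter (cs G U (W ∪ W')) (cs G U (W ∩ W')),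
    ← Finset.card_union_add_card_inter (cs G U W) (cs G U W')]
  refine add_le_add (Finset.card_le_card ?_) (Finset.card_le_card ?_)
  · intro x hx
    rw [Finset.mem_union, mem_cs, mem_cs] at hx ⊢
    rcases hx with ⟨h1, y, h2, h3, h4⟩ | ⟨h1, y, h2, h3, h4⟩
    · rw [Finset.mem_union] at h1 h4
      push Not at h4
      rcases h1 with h1 | h1
      · exact Or.inl ⟨h1, y, h2, h3, h4.1⟩
      · exact Or.inr ⟨h1, y, h2, h3, h4.2⟩
    · rw [Finset.mem_inter] at h1 h4
      by_cases hy : y ∈ W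
      · exact Or.inr ⟨h1.2, y, h2, h3, fun h => h4 ⟨hy, h⟩⟩
      · exact Or.inl ⟨h1.1, y, h2, h3, hy⟩
  · intro x hx
    rw [Finset.mem_inter, mem_cs, mem_cs] at hx ⊢
    obtain ⟨⟨h1, y, h2, h3, h4⟩, ⟨h1', _⟩⟩ := hx
    rw [Finset.mem_union] at h4
    rw [Finset.mem_inter] at h1'
    push Not at h4
    exact ⟨⟨h1'.1, y, h2, h3, h4.1⟩, ⟨h1'.2, y, h2, h3, h4.2⟩⟩

theorem fm_exists (Λ : Finset α) (A : Set α) : ∃ W : Finset α, W ⊆ Λ ∧
    (∀ x ∈ Λ, x ∈ A → x ∈ W) ∧ cst G U W = fm G U Λ A := by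
  have hne : {n | ∃ W : Finset α, W ⊆ Λ ∧ (∀ x ∈ Λ, x ∈ A → x ∈ W) ∧ cst G U W = n}.Nonempty :=
    ⟨_, Λ, Finset.Subset.refl _, fun x hx _ => hx, rfl⟩
  exact Nat.sInf_mem hne

theorem fm_le (Λ : Finset α) (A : Set α) (W : Finset α) (h1 : W ⊆ Λ)
    (h2 : ∀ x ∈ Λ, x ∈ A → x ∈ W) : fm G U Λ A ≤ cst G U W :=
  Nat.sInf_le ⟨W, h1, h2, rfl⟩

theorem fm_mono (Λ : Finset α) (A A' : Set α) (h : A ⊆ A') : fm G U Λ A ≤ fm G U Λ A' := by
  obtain ⟨W, h1, h2, h3⟩ := fm_exists G U Λ A'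
  rw [← h3]
  exact fm_le G U Λ A W h1 (fun x hx hxA => h2 x hx (h hxA))

theorem cst_congr (G' : SimpleGraph α) (W : Finset α)
    (h : ∀ x ∈ W, ∀ y ∈ U, (G.Adj x y ↔ G'.Adj x y)) : cst G U W = cst G' U W := by
  rw [cst_eq, cst_eq]
  congr 1
  ext x
  rw [mem_cs, mem_cs]
  constructor
  · rintro ⟨h1, y, h2, h3, h4⟩
    exact ⟨h1, y, h2, (h x h1 y h2).mp h3, h4⟩
  · rintro ⟨h1, y, h2, h3, h4⟩
    exact ⟨h1, y, h2, (h x h1 y h2).mpr h3, h4⟩

theorem cst_transport (G' : SimpleGraph α) (e : α ≃ α) (he : ∀ x y, G'.Adj (e x) (e y) ↔ G.Adj x y)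
    (W : Finset α) : cst G' (e '' U) (W.image e) = cst G U W := by
  rw [cst_eq, cst_eq]
  have : cs G' (e '' U) (W.image e) = (cs G U W).image e := by
    ext x
    rw [mem_cs, Finset.mem_image, Finset.mem_image]
    constructor
    · rintro ⟨⟨a, h1, rfl⟩, y, ⟨b, h2, rfl⟩, h3, h4⟩
      refine ⟨a, ?_, rfl⟩
      rw [mem_cs]
      exact ⟨h1, b, h2, (he a b).mp h3, fun h => h4 (Finset.mem_image_of_mem e h)⟩
    · rintro ⟨a, h1, rfl⟩
      rw [mem_cs] at h1
      obtain ⟨h1, b, h2, h3, h4⟩ := h1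
      refine ⟨⟨a, h1, rfl⟩, e b, ⟨b, h2, rfl⟩, (he a b).mpr h3, ?_⟩
      intro h
      rw [Finset.mem_image] at h
      obtain ⟨c, hc, hcb⟩ := h
      rw [e.injective hcb] at hc
      exact h4 hc
  rw [this, Finset.card_image_of_injective _ e.injective]

theorem fm_transport_le (G' : SimpleGraph α) (e : α ≃ α)
    (he : ∀ x y, G'.Adj (e x) (e y) ↔ G.Adj x y) (Λ : Finset α) (A : Set α) :
    fm G' (e '' U) (Λ.image e) (e '' A) ≤ fm G U Λ A := by
  obtain ⟨W, h1, h2, h3⟩ := fm_exists G U Λ A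
  rw [← h3, ← cst_transport G U G' e he]
  refine fm_le _ _ _ _ _ (Finset.image_subset_image h1) ?_
  intro x hx hxA
  obtain ⟨a, ha, rfl⟩ := Finset.mem_image.mp hx
  obtain ⟨b, hb, hab⟩ := hxA
  rw [e.injective hab] at hb
  exact Finset.mem_image_of_mem e (h2 a ha hb)

end

theorem main : S_C3 := by
  intro α _ G U
  refine ⟨fm_exists G U, fm_le G U, fm_mono G U, ?_, ?_, ?_, ?_, ?_⟩
  · intro Λ A A' B hB
    obtain ⟨W, h1, h2, h3⟩ := fm_exists G U Λ A
    rw [← h3]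
    refine (fm_le G U Λ A' (W ∪ (B ∩ Λ)) ?_ ?_).trans ((cst_union G U W (B ∩ Λ)).trans
      (add_le_add le_rfl (Finset.card_le_card Finset.inter_subset_left)))
    · exact Finset.union_subset h1 Finset.inter_subset_right
    · intro x hx hxA
      rw [Finset.mem_union, Finset.mem_inter]
      by_cases h : x ∈ A
      · exact Or.inl (h2 x hx h)
      · exact Or.inr ⟨hB x hxA h, hx⟩
  · intro Λ A B hB
    refine (fm_le G U Λ A (B ∩ Λ) Finset.inter_subset_right ?_).trans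
      ((cst_le_card G U _).trans (Finset.card_le_card Finset.inter_subset_left))
    intro x hx hxA
    exact Finset.mem_inter.mpr ⟨hB x hx hxA, hx⟩
  · intro Λ Λ' A A' hΛ hA hAA
    obtain ⟨W0, a1, a2, a3⟩ := fm_exists G U Λ' A
    obtain ⟨W1, b1, b2, b3⟩ := fm_exists G U Λ A'
    rw [← a3, ← b3]
    refine le_trans (add_le_add (fm_le G U Λ' A' (W0 ∪ W1) ?_ ?_)
      (fm_le G U Λ A (W0 ∩ W1) ?_ ?_)) (submod G U W0 W1)
    · exact Finset.union_subset a1 (b1.trans hΛ)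
    · intro x hx hxA
      rw [Finset.mem_union]
      by_cases h : x ∈ A
      · exact Or.inl (a2 x hx h)
      · exact Or.inr (b2 x (hAA x hxA h) hxA)
    · exact Finset.inter_subset_right.trans b1
    · intro x hx hxA
      exact Finset.mem_inter.mpr ⟨a2 x (hΛ hx) hxA, b2 x hx (hA hxA)⟩
  · intro G' Λ A h
    apply le_antisymm
    · obtain ⟨W, h1, h2, h3⟩ := fm_exists G' U Λ A
      rw [← h3, ← cst_congr G U G' W (fun x hx => h x (h1 hx))]
      exact fm_le G U Λ A W h1 h2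
    · obtain ⟨W, h1, h2, h3⟩ := fm_exists G U Λ A
      rw [← h3, cst_congr G U G' W (fun x hx => h x (h1 hx))]
      exact fm_le G' U Λ A W h1 h2
  · intro G' e he Λ A
    apply le_antisymm (fm_transport_le G U G' e he Λ A)
    have h1 := fm_transport_le G' (e '' U) G e.symm (fun x y => by
      rw [← he, Equiv.apply_symm_apply, Equiv.apply_symm_apply]) (Λ.image e) (e '' A)
    have e1 : e.symm '' (e '' U) = U := by
      rw [← Set.image_comp]; simp
    have e2 : e.symm '' (e '' A) = A := by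
      rw [← Set.image_comp]; simp
    have e3 : (Λ.image e).image e.symm = Λ := by
      rw [Finset.image_image]; simp
    rw [e1, e2, e3] at h1
    exact h1

end Pool.Agent.W344.UCC3
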