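import Mathlib
import Pool.Agent.W829.UC.Stmts

/-! UC-C4: rising sun lemma for measure preserving maps (MP_566bac_pr). -/

set_option autoImplicit false
set_option linter.all false

namespace Pool.Agent.W344.UCC4

open Pool.Agent.W829.UC MeasureTheory Filter Topology

/-- all partial sums of length at most `K` from `i` on are positive -/
def bad (a : ℕ → ℝ) (K i : ℕ) : Prop :=
  ∀ k, 1 ≤ k → k ≤ K → 0 < ∑ j ∈ Finset.range k, a (i + j)

theorem bad_shift (a : ℕ → ℝ) (K m i : ℕ) : bad (fun j => a (m + j)) K i ↔ bad a K (m + i) := by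
  unfold bad
  simp only [add_assoc]

open Classical in
theorem det_ineq (M : ℝ) (hM : 0 ≤ M) (K : ℕ) : ∀ (n : ℕ) (a : ℕ → ℝ), (∀ i, |a i| ≤ M) →
    ∑ i ∈ Finset.range n, a i ≤
      M * ∑ i ∈ Finset.range n, (if bad a K i then (1 : ℝ) else 0) + K * M := by
  intro n
  induction n using Nat.strong_induction_on with
  | _ n ih =>
    intro a ha
    have hnn : ∀ (s : Finset ℕ) (f : ℕ → Prop), 0 ≤ M * ∑ i ∈ s, (if f i then (1 : ℝ) else 0) := by
      intro s f
      refine mul_nonneg hM (Finset.sum_nonneg fun i _ => ?_)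
      split_ifs <;> norm_num
    rcases le_or_gt n K with hn | hn
    · have h1 : ∑ i ∈ Finset.range n, a i ≤ n * M := by
        have := Finset.sum_le_card_nsmul (Finset.range n) a M (fun i _ => (le_abs_self _).trans (ha i))
        simpa using this
      have h2 : (n : ℝ) * M ≤ K * M := mul_le_mul_of_nonneg_right (by exact_mod_cast hn) hM
      have h3 := hnn (Finset.range n) (bad a K)
      linarith
    · by_cases hb : bad a K 0
      · obtain ⟨m, rfl⟩ : ∃ m, n = 1 + m := ⟨n - 1, by omega⟩
        have h1 := ih m (by omega) (fun j => a (1 + j)) (fun i => ha _)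
        rw [Finset.sum_range_add, Finset.sum_range_add]
        simp only [bad_shift] at h1
        have h2 : a 0 ≤ M := (le_abs_self _).trans (ha 0)
        simp only [Finset.range_one, Finset.sum_singleton, if_pos hb]
        linarith
      · have hb' : ∃ k, 1 ≤ k ∧ k ≤ K ∧ ∑ j ∈ Finset.range k, a (0 + j) ≤ 0 := by
          unfold bad at hb
          push Not at hb
          obtain ⟨k, h1, h2, h3⟩ := hb
          exact ⟨k, h1, h2, h3⟩
        obtain ⟨k, hk1, hk2, hk3⟩ := hb'
        simp only [zero_add] at hk3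
        obtain ⟨m, rfl⟩ : ∃ m, n = k + m := ⟨n - k, by omega⟩
        have h1 := ih m (by omega) (fun j => a (k + j)) (fun i => ha _)
        rw [Finset.sum_range_add, Finset.sum_range_add, mul_add]
        simp only [bad_shift] at h1
        have h3 := hnn (Finset.range k) (bad a K)
        linarith

theorem main : S_C4 := by
  classical
  intro Ω _ μ _ τ hτ ξ hξ B hB c hc
  by_contra hcon
  have hnull : μ {ω | ∀ k : ℕ, 1 ≤ k → c * k < ∑ i ∈ Finset.range k, ξ (τ^[i] ω)} = 0 :=
    le_antisymm (not_lt.mp hcon) zero_le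
  have hiter : ∀ i, MeasurePreserving (τ^[i]) μ μ := fun i => hτ.iterate i
  set M : ℝ := B + |c| with hM
  have hB0 : 0 ≤ B := by
    have : Nonempty Ω := by
      by_contra h
      rw [not_nonempty_iff] at h
      have := measure_univ (μ := μ)
      rw [Set.univ_eq_empty_iff.mpr h] at this
      simp at this
    exact (abs_nonneg _).trans (hB this.some)
  have hM0 : 0 ≤ M := by positivity
  let g : Ω → ℝ := fun ω => ξ ω - c
  have hgm : Measurable g := hξ.sub_const c
  have hgM : ∀ ω, |g ω| ≤ M := fun ω => (abs_sub _ _).trans (add_le_add (hB ω) le_rfl)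
  let Bad : ℕ → Set Ω := fun K => {ω | bad (fun i => g (τ^[i] ω)) K 0}
  have hsum : ∀ k ω, ∑ j ∈ Finset.range k, g (τ^[0 + j] ω) =
      ∑ j ∈ Finset.range k, ξ (τ^[j] ω) - c * k := by
    intro k ω
    simp only [g, zero_add, Finset.sum_sub_distrib, Finset.sum_const, Finset.card_range,
      nsmul_eq_mul]
    ring
  have hmeas_sum : ∀ k, Measurable fun ω => ∑ j ∈ Finset.range k, g (τ^[0 + j] ω) := fun k =>
    Finset.measurable_sum _ fun j _ => hgm.comp (hiter _).measurable
  have hBadm : ∀ K, MeasurableSet (Bad K) := by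
    intro K
    have : Bad K = ⋂ k ∈ Finset.Icc 1 K, {ω | 0 < ∑ j ∈ Finset.range k, g (τ^[0 + j] ω)} := by
      ext ω
      simp only [Bad, bad, Set.mem_ofPred_eq, Set.mem_iInter, Finset.mem_Icc]
      constructor
      · intro h k hk; exact h k hk.1 hk.2
      · intro h k h1 h2; exact h k ⟨h1, h2⟩
    rw [this]
    exact Finset.measurableSet_biInter _ fun k _ =>
      measurableSet_lt measurable_const (hmeas_sum k)
  have hanti : Antitone Bad := by
    intro K L hKL ω hω k h1 h2
    exact hω k h1 (h2.trans hKL)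
  have hinter : μ (⋂ K, Bad K) = 0 := by
    refine measure_mono_null ?_ hnull
    intro ω hω k hk
    have h1 := Set.mem_iInter.mp hω k k hk le_rfl
    have h2 := hsum k ω
    rw [h2] at h1
    linarith
  have hlim : Tendsto (fun K => μ.real (Bad K)) atTop (𝓝 0) := by
    have h1 := tendsto_measure_iInter_atTop (μ := μ) (s := Bad)
      (fun K => (hBadm K).nullMeasurableSet) hanti ⟨0, measure_ne_top _ _⟩
    rw [hinter] at h1
    have h2 := (ENNReal.tendsto_toReal ENNReal.zero_ne_top).comp h1
    rw [ENNReal.toReal_zero] at h2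
    exact h2
  have hgi : Integrable g μ := by
    refine Integrable.of_bound hgm.aestronglyMeasurable M ?_
    exact Filter.Eventually.of_forall fun ω => by rw [Real.norm_eq_abs]; exact hgM ω
  have hgint : ∀ i, ∫ ω, g (τ^[i] ω) ∂μ = ∫ ω, g ω ∂μ := by
    intro i
    have h1 := integral_map (μ := μ) (hiter i).measurable.aemeasurable
      (f := g) hgm.aestronglyMeasurable
    rw [(hiter i).map_eq] at h1
    exact h1.symm
  have hgii : ∀ i, Integrable (fun ω => g (τ^[i] ω)) μ := fun i =>
    (hiter i).integrable_comp_of_integrable hgi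
  -- the inequality for all `n`, `K`
  have hineq : ∀ K n : ℕ, (n : ℝ) * ∫ ω, g ω ∂μ ≤ M * (n * μ.real (Bad K)) + K * M := by
    intro K n
    have hbadi : ∀ i ω, (if bad (fun i => g (τ^[i] ω)) K i then (1 : ℝ) else 0) =
        (Bad K).indicator (fun _ => (1 : ℝ)) (τ^[i] ω) := by
      intro i ω
      have : bad (fun i => g (τ^[i] ω)) K i ↔ τ^[i] ω ∈ Bad K := by
        show bad (fun i => g (τ^[i] ω)) K i ↔ bad (fun j => g (τ^[j] (τ^[i] ω))) K 0
        unfold bad
        have e : ∀ j, τ^[0 + j] (τ^[i] ω) = τ^[i + j] ω := by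
          intro j
          rw [← Function.iterate_add_apply, zero_add, add_comm]
        simp only [e]
      rw [Set.indicator_apply]
      simp only [this]
    have hpt : ∀ ω, ∑ i ∈ Finset.range n, g (τ^[i] ω) ≤
        M * ∑ i ∈ Finset.range n, (Bad K).indicator (fun _ => (1 : ℝ)) (τ^[i] ω) + K * M := by
      intro ω
      have h1 := det_ineq M hM0 K n (fun i => g (τ^[i] ω)) (fun i => hgM _)
      simp only [hbadi] at h1
      exact h1
    have hind : Integrable ((Bad K).indicator (fun _ => (1 : ℝ))) μ :=
      (integrable_const _).indicator (hBadm K)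
    have hindi : ∀ i, Integrable (fun ω => (Bad K).indicator (fun _ => (1 : ℝ)) (τ^[i] ω)) μ :=
      fun i => (hiter i).integrable_comp_of_integrable hind
    have hindint : ∀ i, ∫ ω, (Bad K).indicator (fun _ => (1 : ℝ)) (τ^[i] ω) ∂μ =
        μ.real (Bad K) := by
      intro i
      have h1 := integral_map (μ := μ) (hiter i).measurable.aemeasurable
        (f := (Bad K).indicator (fun _ => (1 : ℝ))) (by
          rw [(hiter i).map_eq]; exact hind.aestronglyMeasurable)
      rw [(hiter i).map_eq] at h1
      rw [← h1, integral_indicator_const _ (hBadm K), smul_eq_mul, mul_one]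
    have h2 := integral_mono (μ := μ)
      (f := fun ω => ∑ i ∈ Finset.range n, g (τ^[i] ω))
      (g := fun ω => M * ∑ i ∈ Finset.range n, (Bad K).indicator (fun _ => (1 : ℝ)) (τ^[i] ω)
        + K * M)
      (integrable_finset_sum _ fun i _ => hgii i)
      (((integrable_finset_sum _ fun i _ => hindi i).const_mul M).add (integrable_const _)) hpt
    rw [integral_finset_sum _ fun i _ => hgii i, integral_add
      ((integrable_finset_sum _ fun i _ => hindi i).const_mul M) (integrable_const _),
      integral_const_mul, integral_finset_sum _ fun i _ => hindi i] at h2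
    simp only [hgint, hindint, Finset.sum_const, Finset.card_range, nsmul_eq_mul,
      integral_const, probReal_univ, one_smul] at h2
    exact h2
  have hK : ∀ K : ℕ, ∫ ω, g ω ∂μ ≤ M * μ.real (Bad K) := by
    intro K
    by_contra hlt
    have hlt' := not_le.mp hlt
    obtain ⟨n, hn⟩ := exists_nat_gt (K * M / (∫ ω, g ω ∂μ - M * μ.real (Bad K)))
    have hpos : 0 < ∫ ω, g ω ∂μ - M * μ.real (Bad K) := sub_pos.mpr hlt'
    rw [div_lt_iff₀ hpos] at hn
    have := hineq K n
    nlinarith
  have hfin : ∫ ω, g ω ∂μ ≤ 0 := by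
    have h1 : Tendsto (fun K => M * μ.real (Bad K)) atTop (𝓝 (M * 0)) := hlim.const_mul M
    rw [mul_zero] at h1
    exact ge_of_tendsto' h1 hK
  have hξi : Integrable ξ μ := by
    have : ξ = fun ω => g ω + c := by ext ω; simp [g]
    rw [this]
    exact hgi.add (integrable_const c)
  have : ∫ ω, g ω ∂μ = ∫ ω, ξ ω ∂μ - c := by
    show ∫ ω, (ξ ω - c) ∂μ = _
    rw [integral_sub hξi (integrable_const c)]
    simp
  linarith

end Pool.Agent.W344.UCC4
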