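import Mathlib
import Pool.Agent.W829.UC.Stmts

/-! UC-C8: lower density of the infinite cluster (MP_566bac_pr). -/

set_option autoImplicit false
set_option linter.all false

namespace Pool.Agent.W344.UCC8

open Pool.Agent.W829.UC Pool.Agent.H978R2 MeasureTheory Filter Topology

section Second

variable (p : NNReal) (hp : p ≤ 1)

theorem ins_disj {R R' : Set (ℤ × ℤ)} (h : Disjoint R R') : Disjoint (ins R) (ins R') := by
  rw [Set.disjoint_left] at h ⊢
  intro e he he'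
  induction e using Sym2.ind with
  | _ a b =>
    exact h (he a (Sym2.mem_mk_left a b)) (he' a (Sym2.mem_mk_left a b))

theorem indep (x y : ℤ × ℤ) (n : ℕ) (h : Disjoint (Bx x n) (Bx y n)) :
    (mu p hp).real (armE x n ∩ armE y n) = (mu p hp).real (armE x n) * (mu p hp).real (armE y n) := by
  have h1 := bm_inter p hp (ins_disj h) (meas_arm x n) (meas_arm y n) (dep_ins _ _ _) (dep_ins _ _ _)
  unfold Measure.real
  show (bm (Sym2 (ℤ × ℤ)) p hp (armE x n ∩ armE y n)).toReal = _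
  rw [h1, ENNReal.toReal_mul]

/-- centred indicator -/
noncomputable def ff (x : ℤ × ℤ) (n : ℕ) (ω : Sym2 (ℤ × ℤ) → Bool) : ℝ :=
  (armE x n).indicator (fun _ => (1 : ℝ)) ω - (mu p hp).real (armE x n)

theorem ff_meas (x : ℤ × ℤ) (n : ℕ) : Measurable (ff p hp x n) :=
  (measurable_const.indicator (meas_arm x n)).sub_const _

theorem ff_bound (x : ℤ × ℤ) (n : ℕ) (ω : Sym2 (ℤ × ℤ) → Bool) : |ff p hp x n ω| ≤ 1 := by
  have h1 : 0 ≤ (mu p hp).real (armE x n) := measureReal_nonneg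
  have h2 : (mu p hp).real (armE x n) ≤ 1 := measureReal_le_one
  unfold ff
  rw [abs_le]
  by_cases h : ω ∈ armE x n
  · rw [Set.indicator_of_mem h]
    constructor <;> linarith
  · rw [Set.indicator_of_notMem h]
    constructor <;> linarith

theorem ff_mul_int (x y : ℤ × ℤ) (n : ℕ) : Integrable (fun ω => ff p hp x n ω * ff p hp y n ω) (mu p hp) := by
  refine Integrable.of_bound ((ff_meas p hp x n).mul (ff_meas p hp y n)).aestronglyMeasurable 1 ?_
  refine Filter.Eventually.of_forall fun ω => ?_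
  rw [Real.norm_eq_abs, abs_mul]
  exact mul_le_one₀ (ff_bound p hp x n ω) (abs_nonneg _) (ff_bound p hp y n ω)

theorem cov_le (x y : ℤ × ℤ) (n : ℕ) : ∫ ω, ff p hp x n ω * ff p hp y n ω ∂(mu p hp) ≤ 1 := by
  have h1 : ∫ ω, ff p hp x n ω * ff p hp y n ω ∂(mu p hp) ≤ ∫ ω, (1 : ℝ) ∂(mu p hp) := by
    refine integral_mono (ff_mul_int p hp x y n) (integrable_const _) fun ω => ?_
    have h := mul_le_one₀ (ff_bound p hp x n ω) (abs_nonneg _) (ff_bound p hp y n ω)
    rw [← abs_mul] at h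
    exact (le_abs_self _).trans h
  simpa using h1

theorem cov_zero (x y : ℤ × ℤ) (n : ℕ) (h : Disjoint (Bx x n) (Bx y n)) :
    ∫ ω, ff p hp x n ω * ff p hp y n ω ∂(mu p hp) = 0 := by
  set a := (mu p hp).real (armE x n) with ha
  set b := (mu p hp).real (armE y n) with hb
  have e : ∀ ω, ff p hp x n ω * ff p hp y n ω =
      (armE x n ∩ armE y n).indicator (fun _ => (1 : ℝ)) ω
        - a * (armE y n).indicator (fun _ => (1 : ℝ)) ω
        - b * (armE x n).indicator (fun _ => (1 : ℝ)) ω + a * b := by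
    intro ω
    unfold ff
    rw [← ha, ← hb]
    by_cases h1 : ω ∈ armE x n <;> by_cases h2 : ω ∈ armE y n
    · rw [Set.indicator_of_mem h1, Set.indicator_of_mem h2, Set.indicator_of_mem (Set.mem_inter h1 h2)]; ring
    · rw [Set.indicator_of_mem h1, Set.indicator_of_notMem h2,
        Set.indicator_of_notMem (fun h => h2 h.2)]; ring
    · rw [Set.indicator_of_notMem h1, Set.indicator_of_mem h2,
        Set.indicator_of_notMem (fun h => h1 h.1)]; ring
    · rw [Set.indicator_of_notMem h1, Set.indicator_of_notMem h2,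
        Set.indicator_of_notMem (fun h => h1 h.1)]; ring
  have i1 : Integrable ((armE x n ∩ armE y n).indicator (fun _ => (1 : ℝ))) (mu p hp) :=
    (integrable_const _).indicator ((meas_arm x n).inter (meas_arm y n))
  have i2 : Integrable ((armE x n).indicator (fun _ => (1 : ℝ))) (mu p hp) :=
    (integrable_const _).indicator (meas_arm x n)
  have i3 : Integrable ((armE y n).indicator (fun _ => (1 : ℝ))) (mu p hp) :=
    (integrable_const _).indicator (meas_arm y n)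
  have j1 : Integrable (fun ω => (armE x n ∩ armE y n).indicator (fun _ => (1 : ℝ)) ω
        - a * (armE y n).indicator (fun _ => (1 : ℝ)) ω) (mu p hp) := i1.sub (i3.const_mul a)
  have j2 : Integrable (fun ω => (armE x n ∩ armE y n).indicator (fun _ => (1 : ℝ)) ω
        - a * (armE y n).indicator (fun _ => (1 : ℝ)) ω
        - b * (armE x n).indicator (fun _ => (1 : ℝ)) ω) (mu p hp) := j1.sub (i2.const_mul b)
  simp only [e]
  rw [integral_add j2 (integrable_const _),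
    integral_sub j1 (i2.const_mul b), integral_sub i1 (i3.const_mul a),
    integral_const_mul, integral_const_mul,
    integral_indicator_const _ ((meas_arm x n).inter (meas_arm y n)),
    integral_indicator_const _ (meas_arm x n), integral_indicator_const _ (meas_arm y n),
    indep p hp x y n h, ← ha, ← hb]
  simp
  ring

open Classical in
theorem near_card (S : Finset (ℤ × ℤ)) (x : ℤ × ℤ) (n : ℕ) :
    ((S.filter fun y => ¬ Disjoint (Bx x n) (Bx y n)).card : ℝ) ≤ (4 * n + 1) ^ 2 := by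
  have h1 : (S.filter fun y => ¬ Disjoint (Bx x n) (Bx y n)) ⊆
      (Finset.Icc (x.1 - 2 * n) (x.1 + 2 * n)) ×ˢ (Finset.Icc (x.2 - 2 * n) (x.2 + 2 * n)) := by
    intro y hy
    rw [Finset.mem_filter, Set.not_disjoint_iff] at hy
    obtain ⟨_, z, h1, h2⟩ := hy
    rw [mem_Bx] at h1 h2
    rw [Finset.mem_product, Finset.mem_Icc, Finset.mem_Icc]
    omega
  have h2 := Finset.card_le_card h1
  rw [Finset.card_product, Int.card_Icc, Int.card_Icc] at h2
  have e1 : (x.1 + 2 * n + 1 - (x.1 - 2 * n)).toNat = 4 * n + 1 := by omega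
  have e2 : (x.2 + 2 * n + 1 - (x.2 - 2 * n)).toNat = 4 * n + 1 := by omega
  rw [e1, e2] at h2
  calc ((S.filter fun y => ¬ Disjoint (Bx x n) (Bx y n)).card : ℝ)
      ≤ (((4 * n + 1) * (4 * n + 1) : ℕ) : ℝ) := by exact_mod_cast h2
    _ = (4 * n + 1) ^ 2 := by push_cast; ring

theorem var_le (S : Finset (ℤ × ℤ)) (n : ℕ) :
    ∫ ω, (∑ x ∈ S, ff p hp x n ω) ^ 2 ∂(mu p hp) ≤ S.card * (4 * n + 1) ^ 2 := by
  classical
  have e : ∀ ω, (∑ x ∈ S, ff p hp x n ω) ^ 2 = ∑ x ∈ S, ∑ y ∈ S, ff p hp x n ω * ff p hp y n ω := by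
    intro ω
    rw [sq, Finset.sum_mul_sum]
  simp only [e]
  rw [integral_finset_sum _ fun x _ => integrable_finset_sum _ fun y _ => ff_mul_int p hp x y n]
  have h : ∀ x ∈ S, ∫ ω, ∑ y ∈ S, ff p hp x n ω * ff p hp y n ω ∂(mu p hp) ≤ (4 * n + 1) ^ 2 := by
    intro x _
    rw [integral_finset_sum _ fun y _ => ff_mul_int p hp x y n]
    calc ∑ y ∈ S, ∫ ω, ff p hp x n ω * ff p hp y n ω ∂(mu p hp)
        ≤ ∑ y ∈ S, (if ¬ Disjoint (Bx x n) (Bx y n) then (1 : ℝ) else 0) := by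
          refine Finset.sum_le_sum fun y _ => ?_
          split_ifs with h
          · rw [cov_zero p hp x y n h]
          · exact cov_le p hp x y n
      _ = ((S.filter fun y => ¬ Disjoint (Bx x n) (Bx y n)).card : ℝ) := by
          rw [Finset.sum_boole]
      _ ≤ (4 * n + 1) ^ 2 := near_card S x n
  calc ∑ x ∈ S, ∫ ω, ∑ y ∈ S, ff p hp x n ω * ff p hp y n ω ∂(mu p hp)
      ≤ ∑ x ∈ S, ((4 * n + 1) ^ 2 : ℝ) := Finset.sum_le_sum h
    _ = S.card * (4 * n + 1) ^ 2 := by rw [Finset.sum_const, nsmul_eq_mul]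

/-- Chebyshev -/
theorem cheb (S : Finset (ℤ × ℤ)) (hS : 0 < S.card) (n : ℕ) (θ : ℝ) (hθ : 0 < θ)
    (harm : ∀ x, 2 * θ ≤ (mu p hp).real (armE x n)) :
    (mu p hp).real {ω | ∑ x ∈ S, (armE x n).indicator (fun _ => (1 : ℝ)) ω < θ * S.card} ≤
      (4 * n + 1) ^ 2 / (θ ^ 2 * S.card) := by
  have hS' : (0 : ℝ) < S.card := by exact_mod_cast hS
  have hsub : {ω | ∑ x ∈ S, (armE x n).indicator (fun _ => (1 : ℝ)) ω < θ * S.card} ⊆
      {ω | (θ * S.card) ^ 2 ≤ (∑ x ∈ S, ff p hp x n ω) ^ 2} := by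
    intro ω hω
    have h1 : ∑ x ∈ S, ff p hp x n ω = ∑ x ∈ S, (armE x n).indicator (fun _ => (1 : ℝ)) ω
        - ∑ x ∈ S, (mu p hp).real (armE x n) := by
      unfold ff
      rw [Finset.sum_sub_distrib]
    have h2 : S.card * (2 * θ) ≤ ∑ x ∈ S, (mu p hp).real (armE x n) := by
      have := Finset.card_nsmul_le_sum S (fun x => (mu p hp).real (armE x n)) (2 * θ)
        (fun x _ => harm x)
      rwa [nsmul_eq_mul] at this
    have h3 : ∑ x ∈ S, (armE x n).indicator (fun _ => (1 : ℝ)) ω < θ * S.card := hω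
    show (θ * S.card) ^ 2 ≤ (∑ x ∈ S, ff p hp x n ω) ^ 2
    have h4 : ∑ x ∈ S, ff p hp x n ω ≤ - (θ * S.card) := by rw [h1]; linarith
    have h5 : 0 < θ * S.card := mul_pos hθ hS'
    nlinarith
  have hint : Integrable (fun ω => (∑ x ∈ S, ff p hp x n ω) ^ 2) (mu p hp) := by
    have e : (fun ω => (∑ x ∈ S, ff p hp x n ω) ^ 2) =
        fun ω => ∑ x ∈ S, ∑ y ∈ S, ff p hp x n ω * ff p hp y n ω := by
      ext ω
      rw [sq, Finset.sum_mul_sum]
    rw [e]
    exact integrable_finset_sum _ fun x _ => integrable_finset_sum _ fun y _ =>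
      ff_mul_int p hp x y n
  have h1 := mul_meas_ge_le_integral_of_nonneg (μ := mu p hp)
    (f := fun ω => (∑ x ∈ S, ff p hp x n ω) ^ 2)
    (Filter.Eventually.of_forall fun ω => sq_nonneg _) hint ((θ * S.card) ^ 2)
  have h2 := h1.trans (var_le p hp S n)
  have h3 := measureReal_mono (μ := mu p hp) hsub
  have h4 : 0 < (θ * S.card) ^ 2 := by positivity
  rw [← le_div_iff₀' h4] at h2
  refine (h3.trans h2).trans (le_of_eq ?_)
  field_simp

end Second

theorem summ1 (θ : ℝ) (hθ : 0 < θ) :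
    Summable (fun k : ℕ => (4 * ((2 * (k + 1) ^ 2 : ℕ) : ℝ) + 1) ^ 2 / (θ ^ 2 * 2 ^ k)) := by
  have h0 : Summable (fun k : ℕ => ((k : ℝ)) ^ 4 * (1 / 2 : ℝ) ^ k) :=
    summable_pow_mul_geometric_of_norm_lt_one 4 (by rw [Real.norm_eq_abs]; norm_num)
  have h1 : Summable (fun k : ℕ => (((k + 1 : ℕ) : ℝ)) ^ 4 * (1 / 2 : ℝ) ^ (k + 1)) :=
    (summable_nat_add_iff 1).mpr h0
  refine Summable.of_nonneg_of_le (fun k => by positivity) (fun k => ?_) (h1.mul_left (162 / θ ^ 2))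
  have hk : (1 : ℝ) ≤ ((k : ℝ) + 1) ^ 2 := by
    have : (0 : ℝ) ≤ k := Nat.cast_nonneg k
    nlinarith
  have h2 : (4 * ((2 * (k + 1) ^ 2 : ℕ) : ℝ) + 1) ^ 2 ≤ 81 * ((k : ℝ) + 1) ^ 4 := by
    push_cast
    nlinarith
  have e : 162 / θ ^ 2 * ((((k + 1 : ℕ) : ℝ)) ^ 4 * (1 / 2 : ℝ) ^ (k + 1)) =
      81 * ((k : ℝ) + 1) ^ 4 / (θ ^ 2 * 2 ^ k) := by
    push_cast
    rw [pow_succ, one_div, inv_pow]
    field_simp
    ring
  rw [e]
  exact div_le_div_of_nonneg_right h2 (by positivity)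

theorem summ2 (c K : ℝ) (hc : 0 < c) (hK : 0 < K) (c0 : ℕ) :
    Summable (fun k : ℕ => (2 : ℝ) ^ (c0 * (k + 1)) *
      (K * Real.exp (-c * ((((k + 1) ^ 2 : ℕ)) : ℝ)))) := by
  have h0 : Summable (fun k : ℕ => Real.exp (-((k : ℕ) : ℝ))) := Real.summable_exp_neg_nat
  have h1 : Summable (fun k : ℕ => Real.exp (-((k + 1 : ℕ) : ℝ))) :=
    (summable_nat_add_iff 1).mpr h0
  set a : ℝ := c0 * Real.log 2 with ha
  refine Summable.of_nonneg_of_le (fun k => by positivity) (fun k => ?_)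
    (h1.mul_left (K * Real.exp ((a + 1) ^ 2 / (4 * c))))
  have h2 : (2 : ℝ) ^ (c0 * (k + 1)) = Real.exp (a * ((k : ℝ) + 1)) := by
    have : (2 : ℝ) = Real.exp (Real.log 2) := (Real.exp_log (by norm_num)).symm
    conv_lhs => rw [this]
    rw [← Real.exp_nat_mul, ha]
    congr 1
    push_cast
    ring
  rw [h2]
  have h3 : Real.exp (a * ((k : ℝ) + 1)) * (K * Real.exp (-c * ((((k + 1) ^ 2 : ℕ)) : ℝ))) =
      K * Real.exp (a * ((k : ℝ) + 1) - c * ((k : ℝ) + 1) ^ 2) := by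
    rw [sub_eq_add_neg, Real.exp_add]
    push_cast
    rw [neg_mul]
    ring
  have h4 : K * Real.exp ((a + 1) ^ 2 / (4 * c)) * Real.exp (-((k + 1 : ℕ) : ℝ)) =
      K * Real.exp ((a + 1) ^ 2 / (4 * c) - ((k : ℝ) + 1)) := by
    rw [sub_eq_add_neg, Real.exp_add]
    push_cast
    ring
  rw [h3, h4]
  refine mul_le_mul_of_nonneg_left (Real.exp_le_exp.mpr ?_) hK.le
  set t : ℝ := (k : ℝ) + 1
  have h5 : 0 ≤ c * (t - (a + 1) / (2 * c)) ^ 2 := by positivity
  have h6 : c * (t - (a + 1) / (2 * c)) ^ 2 = c * t ^ 2 - (a + 1) * t + (a + 1) ^ 2 / (4 * c) := by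
    field_simp
    ring
  rw [h6] at h5
  linarith

theorem main : S_C7a → S_C7b → S_C8 := by
  classical
  intro C7a C7b p hp hp2
  obtain ⟨K, c, hK, hc, hE⟩ := C7a p hp hp2
  obtain ⟨_, θ0, hθ0, harm⟩ := C7b p hp hp2
  choose E hEm hEp hEω using hE
  refine ⟨θ0 / 2, by positivity, fun S c0 hS => ?_⟩
  have hm : ∀ k : ℕ, 1 ≤ (k + 1) ^ 2 := fun k => Nat.one_le_pow _ _ (by omega)
  let B1 : ℕ → Set (Sym2 (ℤ × ℤ) → Bool) := fun k =>
    {ω | ∑ x ∈ S k, (armE x (2 * (k + 1) ^ 2)).indicator (fun _ => (1 : ℝ)) ω < θ0 / 2 * (S k).card}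
  let B2 : ℕ → Set (Sym2 (ℤ × ℤ) → Bool) := fun k => ⋃ x ∈ S k, (E x ((k + 1) ^ 2) (hm k))ᶜ
  have hcard : ∀ k, (0 : ℝ) < (S k).card := by
    intro k
    have h1 : 0 < 2 ^ k := by positivity
    exact_mod_cast lt_of_lt_of_le h1 (hS k).1
  have b1 : ∀ k, (mu p hp).real (B1 k) ≤
      (4 * ((2 * (k + 1) ^ 2 : ℕ) : ℝ) + 1) ^ 2 / ((θ0 / 2) ^ 2 * 2 ^ k) := by
    intro k
    refine (cheb p hp (S k) (by exact_mod_cast hcard k) (2 * (k + 1) ^ 2) (θ0 / 2) (by positivity)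
      (fun x => by rw [mul_div_cancel₀ _ (two_ne_zero)]; exact harm x _)).trans ?_
    refine div_le_div_of_nonneg_left (by positivity) (by positivity) ?_
    refine mul_le_mul_of_nonneg_left ?_ (by positivity)
    exact_mod_cast (hS k).1
  have b2 : ∀ k, (mu p hp).real (B2 k) ≤ (2 : ℝ) ^ (c0 * (k + 1)) *
      (K * Real.exp (-c * ((((k + 1) ^ 2 : ℕ)) : ℝ))) := by
    intro k
    refine (measureReal_biUnion_finset_le _ _).trans ?_
    have h1 : ∀ x ∈ S k, (mu p hp).real ((E x ((k + 1) ^ 2) (hm k))ᶜ) ≤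
        K * Real.exp (-c * ((((k + 1) ^ 2 : ℕ)) : ℝ)) := by
      intro x _
      rw [probReal_compl_eq_one_sub (hEm x _ _)]
      have := hEp x ((k + 1) ^ 2) (hm k)
      linarith
    refine (Finset.sum_le_sum h1).trans ?_
    rw [Finset.sum_const, nsmul_eq_mul]
    refine mul_le_mul_of_nonneg_right ?_ (by positivity)
    exact_mod_cast (hS k).2
  have hsum := (summ1 (θ0 / 2) (by positivity)).add (summ2 c K hc hK c0)
  have hfin : ∑' k, (mu p hp) (B1 k ∪ B2 k) ≠ ⊤ := by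
    refine ne_top_of_le_ne_top hsum.tsum_ofReal_ne_top (ENNReal.tsum_le_tsum fun k => ?_)
    rw [← ofReal_measureReal]
    exact ENNReal.ofReal_le_ofReal ((measureReal_union_le _ _).trans (add_le_add (b1 k) (b2 k)))
  filter_upwards [ae_eventually_notMem hfin] with ω hω
  filter_upwards [hω] with k hk
  rw [Set.mem_union, not_or] at hk
  obtain ⟨hk1, hk2⟩ := hk
  have hk1' : θ0 / 2 * (S k).card ≤
      ∑ x ∈ S k, (armE x (2 * (k + 1) ^ 2)).indicator (fun _ => (1 : ℝ)) ω := not_lt.mp hk1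
  have hk2' : ∀ x ∈ S k, ω ∈ E x ((k + 1) ^ 2) (hm k) := by
    intro x hx
    by_contra h
    exact hk2 (Set.mem_biUnion (Finset.mem_coe.mpr hx) h)
  refine hk1'.trans ?_
  have e : ∑ x ∈ S k, (armE x (2 * (k + 1) ^ 2)).indicator (fun _ => (1 : ℝ)) ω =
      (((S k).filter fun x => ω ∈ armE x (2 * (k + 1) ^ 2)).card : ℝ) := by
    rw [← Finset.sum_boole]
    refine Finset.sum_congr rfl fun x _ => ?_
    rw [Set.indicator_apply]
  rw [e]
  have hsub : (((S k).filter fun x => ω ∈ armE x (2 * (k + 1) ^ 2) : Finset (ℤ × ℤ)) : Set (ℤ × ℤ))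
      ⊆ ↑(S k) ∩ InfV ω := by
    intro x hx
    rw [Finset.mem_coe, Finset.mem_filter] at hx
    refine ⟨hx.1, ?_⟩
    obtain ⟨a, ha, v, hv, hr⟩ := hx.2
    rw [Set.mem_singleton_iff] at ha
    subst ha
    have h1 := (hEω a ((k + 1) ^ 2) (hm k) ω (hk2' a hx.1)).2 a (self_mem_Bx a _)
      ⟨v, hv, hr.mono (openG_mono (latR_le _) ω)⟩
    exact h1.1
  have h2 := Set.ncard_le_ncard hsub ((S k).finite_toSet.subset Set.inter_subset_left)
  rw [Set.ncard_coe_finset] at h2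
  exact_mod_cast h2

end Pool.Agent.W344.UCC8
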