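import Mathlib
import Pool.Agent.W526.LL.Stm

/-! LL-LD: local data at the finite places (MP_5ae62c_nt). -/

namespace Pool.Agent.W344.LLLd

open Pool.Agent.W526.LL WithZero IsDedekindDomain Polynomial

theorem v_poly (v : HeightOneSpectrum (ZMod 2)[X]) (b : (ZMod 2)[X]) :
    Valued.v (cmap (some v) (ofPoly b)) = v.intValuation b := by
  rw [v_fin]
  exact v.valuation_of_algebraMap b

theorem v_poly_lt (v : HeightOneSpectrum (ZMod 2)[X]) (b : (ZMod 2)[X]) :
    Valued.v (cmap (some v) (ofPoly b)) < 1 ↔ b ∈ v.asIdeal := by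
  rw [v_poly]
  exact v.intValuation_lt_one_iff_mem b

theorem v_poly_le (v : HeightOneSpectrum (ZMod 2)[X]) (b : (ZMod 2)[X]) :
    Valued.v (cmap (some v) (ofPoly b)) ≤ 1 := by
  rw [v_poly]
  exact v.intValuation_le_one b

/-- every integral element is congruent to a polynomial -/
theorem polyapprox (v : HeightOneSpectrum (ZMod 2)[X]) (x : Kv (some v)) (hx : Valued.v x ≤ 1) :
    ∃ b : (ZMod 2)[X], Valued.v (x - cmap (some v) (ofPoly b)) < 1 := by
  obtain ⟨a, ha⟩ := approx (some v) x 0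
  rw [exp_zero] at ha
  have h1 : Valued.v (cmap (some v) a) ≤ 1 := by
    have e : cmap (some v) a = x - (x - cmap (some v) a) := by ring
    rw [e]
    exact (Valuation.map_sub _ _ _).trans (max_le hx ha.le)
  rw [v_fin] at h1
  obtain ⟨b, hb⟩ := v.exists_valuation_sub_lt_of_integer h1 1
  refine ⟨b, ?_⟩
  have hb' : Valued.v (cmap (some v) (ofPoly b - a)) < 1 := by
    rw [v_fin]
    simpa using hb
  have e : x - cmap (some v) (ofPoly b) = (x - cmap (some v) a) - cmap (some v) (ofPoly b - a) := by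
    rw [map_sub]; ring
  rw [e]
  exact (Valuation.map_sub _ _ _).trans_lt (max_lt ha hb')

theorem ofPoly_sub (b c : (ZMod 2)[X]) : ofPoly (b - c) = ofPoly b - ofPoly c :=
  map_sub (algebraMap (ZMod 2)[X] KK) b c

theorem lead (P : (ZMod 2)[X]) (hP : P ≠ 0) : P.Monic := by
  have h2 : ∀ z : ZMod 2, z ≠ 0 → z = 1 := by decide
  exact h2 _ (Polynomial.leadingCoeff_ne_zero.mpr hP)

theorem exists_gen (v : HeightOneSpectrum (ZMod 2)[X]) :
    ∃ P : (ZMod 2)[X], v.asIdeal = Ideal.span {P} ∧ P ≠ 0 := by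
  obtain ⟨P, hP⟩ := (IsPrincipalIdealRing.principal v.asIdeal).principal
  refine ⟨P, hP, ?_⟩
  rintro rfl
  apply v.ne_bot
  rw [hP]
  simp

theorem finQ (v : HeightOneSpectrum (ZMod 2)[X]) : Finite ((ZMod 2)[X] ⧸ v.asIdeal) := by
  obtain ⟨P, hP, hP0⟩ := exists_gen v
  rw [hP]
  have h1 : Module.Finite (ZMod 2) (AdjoinRoot P) := (lead P hP0).finite_adjoinRoot
  exact Module.finite_of_finite (ZMod 2) (M := AdjoinRoot P)

theorem main : S_ld := by
  classical
  intro v
  obtain ⟨P, hP, hP0⟩ := exists_gen v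
  have hfin := finQ v
  have hft := Fintype.ofFinite ((ZMod 2)[X] ⧸ v.asIdeal)
  let rep : (ZMod 2)[X] ⧸ v.asIdeal → (ZMod 2)[X] := fun q =>
    if q = 0 then 0 else Function.surjInv Ideal.Quotient.mk_surjective q
  have hrep : ∀ q, Ideal.Quotient.mk v.asIdeal (rep q) = q := by
    intro q
    by_cases hq : q = 0
    · simp only [rep, hq, if_true, map_zero]
    · simp only [rep, if_neg hq]
      exact Function.surjInv_eq _ q
  have hlt : ∀ q q', Valued.v (cmap (some v) (ofPoly (rep q)) - cmap (some v) (ofPoly (rep q'))) < 1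
      → q = q' := by
    intro q q' h
    rw [← map_sub, ← map_sub, v_poly_lt] at h
    rw [← hrep q, ← hrep q']
    exact Ideal.Quotient.eq.mpr h
  refine ⟨{ ϖ := cmap (some v) (ofPoly P)
            hϖ := ?_
            T := Finset.univ.image (fun q => cmap (some v) (ofPoly (rep q)))
            hT0 := ?_
            hT := ?_
            hrep := ?_
            huniq := ?_ }, ?_, P, rfl, hP⟩
  · rw [v_poly]
    exact v.intValuation_singleton hP0 hP
  · rw [Finset.mem_image]
    refine ⟨0, Finset.mem_univ _, ?_⟩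
    simp only [rep, if_true, map_zero]
  · intro t ht
    rw [Finset.mem_image] at ht
    obtain ⟨q, _, rfl⟩ := ht
    exact v_poly_le v _
  · intro x hx
    obtain ⟨b, hb⟩ := polyapprox v x hx
    refine ⟨cmap (some v) (ofPoly (rep (Ideal.Quotient.mk v.asIdeal b))), ?_, ?_⟩
    · rw [Finset.mem_image]
      exact ⟨_, Finset.mem_univ _, rfl⟩
    · have h2 : Valued.v (cmap (some v) (ofPoly (b - rep (Ideal.Quotient.mk v.asIdeal b)))) < 1 := by
        rw [v_poly_lt]
        exact Ideal.Quotient.eq.mp (hrep _).symm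
      have e : x - cmap (some v) (ofPoly (rep (Ideal.Quotient.mk v.asIdeal b))) =
          (x - cmap (some v) (ofPoly b)) +
            cmap (some v) (ofPoly (b - rep (Ideal.Quotient.mk v.asIdeal b))) := by
        rw [ofPoly_sub, map_sub]; ring
      rw [e]
      exact (Valuation.map_add _ _ _).trans_lt (max_lt hb h2)
  · intro t ht t' ht' h
    rw [Finset.mem_image] at ht ht'
    obtain ⟨q, _, rfl⟩ := ht
    obtain ⟨q', _, rfl⟩ := ht'
    rw [hlt q q' h]
  · show (Finset.univ.image (fun q => cmap (some v) (ofPoly (rep q)))).card = Nat.card _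
    rw [Finset.card_image_of_injective, Finset.card_univ, Nat.card_eq_fintype_card]
    intro q q' h
    apply hlt
    have h' : cmap (some v) (ofPoly (rep q)) = cmap (some v) (ofPoly (rep q')) := h
    rw [h', sub_self, map_zero]
    exact zero_lt_one

theorem res_aux (v : HeightOneSpectrum (ZMod 2)[X]) (c : ZMod 2)
    (hv : ∀ b : (ZMod 2)[X], b.eval c = 0 → b ∈ v.asIdeal) (x : Kv (some v))
    (hx : Valued.v x ≤ 1) : Valued.v x < 1 ∨ Valued.v (x - 1) < 1 := by
  obtain ⟨b, hb⟩ := polyapprox v x hx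
  have h2 : ∀ z : ZMod 2, z = 0 ∨ z = 1 := by decide
  rcases h2 (b.eval c) with h | h
  · left
    have h3 := (v_poly_lt v b).mpr (hv b h)
    have e : x = (x - cmap (some v) (ofPoly b)) + cmap (some v) (ofPoly b) := by ring
    rw [e]
    exact (Valuation.map_add _ _ _).trans_lt (max_lt hb h3)
  · right
    have h3 := (v_poly_lt v (b - 1)).mpr (hv (b - 1) (by simp [h]))
    have e : x - 1 = (x - cmap (some v) (ofPoly b)) + cmap (some v) (ofPoly (b - 1)) := by
      rw [ofPoly_sub, map_sub, show ofPoly 1 = 1 from map_one _, map_one]; ring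
    rw [e]
    exact (Valuation.map_add _ _ _).trans_lt (max_lt hb h3)

theorem res0 (x : Kv (some pl0)) (hx : Valued.v x ≤ 1) :
    Valued.v x < 1 ∨ Valued.v (x - 1) < 1 := by
  refine res_aux pl0 0 (fun b hb => ?_) x hx
  show b ∈ Ideal.span {X}
  rw [Ideal.mem_span_singleton, Polynomial.X_dvd_iff, Polynomial.coeff_zero_eq_eval_zero]
  exact hb

theorem res1 (x : Kv (some pl1)) (hx : Valued.v x ≤ 1) :
    Valued.v x < 1 ∨ Valued.v (x - 1) < 1 := by
  refine res_aux pl1 1 (fun b hb => ?_) x hx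
  show b ∈ Ideal.span {X - C 1}
  rw [Ideal.mem_span_singleton, Polynomial.dvd_iff_isRoot]
  exact hb

theorem res : (∀ x : Kv (some pl0), Valued.v x ≤ 1 → Valued.v x < 1 ∨ Valued.v (x - 1) < 1) ∧
    (∀ x : Kv (some pl1), Valued.v x ≤ 1 → Valued.v x < 1 ∨ Valued.v (x - 1) < 1) :=
  ⟨res0, res1⟩

end Pool.Agent.W344.LLLd
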