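import Mathlib
import Pool.Agent.W526.LL.Stm

/-! LL-QUO: finite index of congruence subgroups (MP_5ae62c_nt). -/

namespace Pool.Agent.W344.LLQuo

open Pool.Agent.W526.LL WithZero

theorem le_exp_neg_one {a : ℤᵐ⁰} (h : a < 1) : a ≤ exp (-1 : ℤ) := by
  by_cases ha : a = 0
  · rw [ha]; exact zero_le
  · rw [← exp_log ha] at h ⊢
    rw [← exp_zero, exp_lt_exp] at h
    rw [exp_le_exp]
    omega

theorem approx {F : Type} [Field F] [Valued F ℤᵐ⁰] (D : LD F) (n : ℕ) :
    ∃ R : Finset F, ∀ x : F, Valued.v x ≤ 1 → ∃ r ∈ R, Valued.v (x - r) ≤ exp (-(n : ℤ)) := by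
  classical
  induction n with
  | zero =>
    refine ⟨{0}, fun x hx => ⟨0, by simp, ?_⟩⟩
    simpa using hx
  | succ n ih =>
    obtain ⟨R, hR⟩ := ih
    refine ⟨(D.T ×ˢ R).image (fun p => p.1 + D.ϖ * p.2), fun x hx => ?_⟩
    obtain ⟨t, ht, hxt⟩ := D.hrep x hx
    have hxt' := le_exp_neg_one hxt
    have hy : Valued.v ((x - t) / D.ϖ) ≤ 1 := by
      rw [map_div₀, D.hϖ]
      exact (div_le_one₀ (by simp)).mpr hxt'
    obtain ⟨r, hr, hyr⟩ := hR _ hy
    refine ⟨t + D.ϖ * r, ?_, ?_⟩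
    · rw [Finset.mem_image]
      exact ⟨(t, r), Finset.mem_product.mpr ⟨ht, hr⟩, rfl⟩
    · have e : x - (t + D.ϖ * r) = D.ϖ * ((x - t) / D.ϖ - r) := by
        have := D.ne
        field_simp
        ring
      rw [e, map_mul, D.hϖ]
      refine (mul_le_mul' le_rfl hyr).trans ?_
      rw [← exp_add, exp_le_exp]
      push_cast
      omega

theorem main : S_quo := by
  intro F _ _ D n H hH
  classical
  obtain ⟨R, hR⟩ := approx D n
  have hrep : ∀ x : F, ∃ r : F, Valued.v x ≤ 1 → r ∈ R ∧ Valued.v (x - r) ≤ exp (-(n : ℤ)) := by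
    intro x
    by_cases hx : Valued.v x ≤ 1
    · obtain ⟨r, hr, h⟩ := hR x hx
      exact ⟨r, fun _ => ⟨hr, h⟩⟩
    · exact ⟨0, fun h => absurd h hx⟩
  choose rep hrep using hrep
  let f : H ⧸ (Kn F n).subgroupOf H → (Fin 2 → Fin 2 → R) := fun c i j =>
    ⟨rep (((Quotient.out c : H) : GL (Fin 2) F) i j),
      (hrep _ ((hH (Quotient.out c : H).2).1 i j)).1⟩
  refine Finite.of_injective f ?_
  intro c c' hcc
  have key : ∀ i j, Valued.v (((Quotient.out c' : H) : GL (Fin 2) F) i j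
      - ((Quotient.out c : H) : GL (Fin 2) F) i j) ≤ exp (-(n : ℤ)) := by
    intro i j
    have h1 : rep (((Quotient.out c : H) : GL (Fin 2) F) i j) =
        rep (((Quotient.out c' : H) : GL (Fin 2) F) i j) :=
      congrArg Subtype.val (congrFun (congrFun hcc i) j)
    have h2 := (hrep _ ((hH (Quotient.out c : H).2).1 i j)).2
    have h3 := (hrep _ ((hH (Quotient.out c' : H).2).1 i j)).2
    rw [h1] at h2
    have e : ((Quotient.out c' : H) : GL (Fin 2) F) i j
      - ((Quotient.out c : H) : GL (Fin 2) F) i j =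
      (((Quotient.out c' : H) : GL (Fin 2) F) i j
        - rep (((Quotient.out c' : H) : GL (Fin 2) F) i j))
      - (((Quotient.out c : H) : GL (Fin 2) F) i j
        - rep (((Quotient.out c' : H) : GL (Fin 2) F) i j)) := by ring
    rw [e]
    exact Valued.v.map_sub_le h3 h2
  rw [← QuotientGroup.out_eq' c, ← QuotientGroup.out_eq' c', QuotientGroup.eq,
    Subgroup.mem_subgroupOf]
  set g : GL (Fin 2) F := ((Quotient.out c : H) : GL (Fin 2) F) with hg
  set h : GL (Fin 2) F := ((Quotient.out c' : H) : GL (Fin 2) F) with hh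
  have hgK : g ∈ maxK F := hH (Quotient.out c : H).2
  have hhK : h ∈ maxK F := hH (Quotient.out c' : H).2
  have hgi := inv_mem hgK
  have e0 : (((Quotient.out c : H)⁻¹ * (Quotient.out c' : H) : H) : GL (Fin 2) F) = g⁻¹ * h := rfl
  rw [e0]
  refine ⟨mul_mem hgi hhK, fun i j => ?_⟩
  have e : (g⁻¹ * h) i j - (1 : GL (Fin 2) F) i j =
      g⁻¹ i 0 * (h 0 j - g 0 j) + g⁻¹ i 1 * (h 1 j - g 1 j) := by
    have h1 : (1 : GL (Fin 2) F) i j = g⁻¹ i 0 * g 0 j + g⁻¹ i 1 * g 1 j := by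
      rw [← mul_ij, inv_mul_cancel]
    rw [h1, mul_ij]
    ring
  rw [e]
  refine Valued.v.map_add_le ?_ ?_ <;> rw [map_mul]
  · exact (mul_le_mul' (hgi.1 _ _) (key _ _)).trans (by simp)
  · exact (mul_le_mul' (hgi.1 _ _) (key _ _)).trans (by simp)

end Pool.Agent.W344.LLQuo
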