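import Mathlib
import Pool.Agent.W526.LL.Stm

/-! LL-ZORN: irreducible quotients (MP_5ae62c_nt). -/

namespace Pool.Agent.W344.LLZorn

open Pool.Agent.W526.LL

theorem main : S_zorn := by
  intro G V _ _ _ ρ y N hN hy hspan
  let S : Set (Submodule ℂ V) := {P | N ≤ P ∧ y ∉ P ∧ ∀ g, ∀ v ∈ P, ρ g v ∈ P}
  have hNS : N ∈ S := ⟨le_rfl, hy, hN⟩
  obtain ⟨M, hNM, hM⟩ := zorn_le_nonempty₀ S (by
    intro c hc hchain P hP
    refine ⟨sSup c, ⟨?_, ?_, ?_⟩, fun Q hQ => le_sSup hQ⟩
    · exact (hc hP).1.trans (le_sSup hP)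
    · intro h
      rw [Submodule.mem_sSup_of_directed ⟨P, hP⟩ hchain.directedOn] at h
      obtain ⟨Q, hQ, hyQ⟩ := h
      exact (hc hQ).2.1 hyQ
    · intro g v hv
      rw [Submodule.mem_sSup_of_directed ⟨P, hP⟩ hchain.directedOn] at hv ⊢
      obtain ⟨Q, hQ, hvQ⟩ := hv
      exact ⟨Q, hQ, (hc hQ).2.2 g v hvQ⟩) N hNS
  have hMS : M ∈ S := hM.prop
  have hyM : y ∉ M := hMS.2.1
  have hMinv : ∀ g, ∀ v ∈ M, ρ g v ∈ M := hMS.2.2
  let ρ' : Representation ℂ G (V ⧸ M) :=
    { toFun := fun g => M.mapQ M (ρ g) (fun v hv => hMinv g v hv)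
      map_one' := by
        refine Submodule.linearMap_qext _ ?_
        ext v
        simp
      map_mul' := by
        intro g h
        refine Submodule.linearMap_qext _ ?_
        ext v
        simp }
  have hρ' : ∀ g v, M.mkQ (ρ g v) = ρ' g (M.mkQ v) := fun g v => rfl
  refine ⟨V ⧸ M, inferInstance, inferInstance, ρ', M.mkQ, M.mkQ_surjective, hρ', ⟨?_, ?_⟩, ?_, ?_⟩
  · exact ⟨M.mkQ y, by simpa using hyM⟩
  · intro P hP
    have hle : M ≤ P.comap M.mkQ := by
      intro v hv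
      have : M.mkQ v = 0 := by simpa using hv
      simp only [Submodule.mem_comap, this, zero_mem]
    have hinv : ∀ g, ∀ v ∈ P.comap M.mkQ, ρ g v ∈ P.comap M.mkQ := by
      intro g v hv
      simp only [Submodule.mem_comap] at hv ⊢
      rw [hρ']
      exact hP g _ hv
    by_cases hyP : y ∈ P.comap M.mkQ
    · right
      have htop : P.comap M.mkQ = ⊤ := by
        rw [eq_top_iff, ← hspan, Submodule.span_le]
        rintro _ ⟨g, rfl⟩
        exact hinv g y hyP
      rw [eq_top_iff]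
      intro x _
      obtain ⟨v, rfl⟩ := M.mkQ_surjective x
      have : v ∈ P.comap M.mkQ := by rw [htop]; trivial
      exact this
    · left
      have hmem : P.comap M.mkQ ∈ S := ⟨hNM.trans hle, hyP, hinv⟩
      have hge : P.comap M.mkQ ≤ M := hM.le_of_ge hmem hle
      rw [eq_bot_iff]
      intro x hx
      obtain ⟨v, rfl⟩ := M.mkQ_surjective x
      have : v ∈ M := hge hx
      simpa using this
  · simpa using hyM
  · intro v hv
    simpa using hNM hv

end Pool.Agent.W344.LLZorn
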