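import Mathlib

set_option autoImplicit false

/-! The finitary automorphism group of the binary rooted tree and its normal T-sequences. -/

namespace Pool.Agent.W344.Branch

open Equiv

/-- tree automorphism with portrait `s` -/
def fwd (s : List Bool → Bool) : List Bool → List Bool
  | [] => []
  | a :: v => xor a (s v) :: fwd s v

/-- its inverse -/
def bwd (s : List Bool → Bool) : List Bool → List Bool
  | [] => []
  | b :: u => xor b (s (bwd s u)) :: bwd s u

theorem bwd_fwd (s : List Bool → Bool) (v : List Bool) : bwd s (fwd s v) = v := by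
  induction v with
  | nil => rfl
  | cons a v ih => simp [fwd, bwd, ih]

theorem fwd_bwd (s : List Bool → Bool) (v : List Bool) : fwd s (bwd s v) = v := by
  induction v with
  | nil => rfl
  | cons a v ih => simp [fwd, bwd, ih]

def aut (s : List Bool → Bool) : Perm (List Bool) := ⟨fwd s, bwd s, bwd_fwd s, fwd_bwd s⟩

theorem aut_apply (s : List Bool → Bool) (v : List Bool) : aut s v = fwd s v := rfl

theorem fwd_length (s : List Bool → Bool) (v : List Bool) : (fwd s v).length = v.length := by
  induction v with
  | nil => rfl
  | cons a v ih => simp [fwd, ih]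

theorem fwd_tail (s : List Bool → Bool) (v : List Bool) : (fwd s v).tail = fwd s v.tail := by
  cases v with
  | nil => rfl
  | cons a v => rfl

theorem Perm.apply_inv_self' {α : Type} (f : Perm α) (x : α) : f (f⁻¹ x) = x := by
  rw [← Perm.mul_apply, mul_inv_cancel]; rfl

/-- the finitary automorphism group of the binary tree, whose vertices are lists (the parent of
a list is its tail) -/
def FA : Subgroup (Perm (List Bool)) where
  carrier := {g | (∀ w, (g w).length = w.length) ∧ (∀ w, (g w).tail = g w.tail) ∧
    ∃ N : ℕ, ∀ a v, N ≤ v.length → g (a :: v) = a :: g v}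
  one_mem' := ⟨fun _ => rfl, fun _ => rfl, 0, fun _ _ _ => rfl⟩
  mul_mem' := by
    rintro g h ⟨g1, g2, N, g3⟩ ⟨h1, h2, M, h3⟩
    refine ⟨fun w => ?_, fun w => ?_, max N M, fun a v hv => ?_⟩
    · rw [Perm.mul_apply, g1, h1]
    · rw [Perm.mul_apply, g2, h2, Perm.mul_apply]
    · rw [Perm.mul_apply, h3 a v (le_trans (le_max_right _ _) hv), g3, Perm.mul_apply]
      rw [h1]; exact le_trans (le_max_left _ _) hv
  inv_mem' := by
    rintro g ⟨g1, g2, N, g3⟩
    have h1 : ∀ w, (g⁻¹ w).length = w.length := by
      intro w
      rw [← g1 (g⁻¹ w), Perm.apply_inv_self']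
    refine ⟨h1, fun w => ?_, N, fun a v hv => ?_⟩
    · rw [Perm.eq_inv_iff_eq, ← g2, Perm.apply_inv_self']
    · rw [Perm.inv_eq_iff_eq, g3 a _ (by rw [h1]; exact hv), Perm.apply_inv_self']

theorem FA_len (g : FA) (w : List Bool) : ((g : Perm (List Bool)) w).length = w.length := g.2.1 w

theorem FA_tail (g : FA) (w : List Bool) :
    ((g : Perm (List Bool)) w).tail = (g : Perm (List Bool)) w.tail := g.2.2.1 w

theorem aut_mem (s : List Bool → Bool) (hs : ∃ N : ℕ, ∀ v : List Bool, N ≤ v.length → s v = false) :
    aut s ∈ FA := by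
  obtain ⟨N, hN⟩ := hs
  refine ⟨fwd_length s, fwd_tail s, N, fun a v hv => ?_⟩
  rw [aut_apply, fwd, hN v hv, Bool.xor_false]; rfl

/-- the bit of the portrait at `v` -/
def sg (g : Perm (List Bool)) (v : List Bool) : ZMod 2 :=
  if (g (false :: v)).head? = some true then 1 else 0

theorem FA_cons (g : FA) (a : Bool) (v : List Bool) :
    (g : Perm (List Bool)) (a :: v) =
      xor a (decide (((g : Perm (List Bool)) (false :: v)).head? = some true)) ::
        (g : Perm (List Bool)) v := by
  have key : ∀ b : Bool, ∃ c : Bool, (g : Perm (List Bool)) (b :: v) = c :: (g : Perm (List Bool)) v := by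
    intro b
    have h1 := FA_len g (b :: v)
    have h2 := FA_tail g (b :: v)
    rcases hgb : (g : Perm (List Bool)) (b :: v) with _ | ⟨c, u⟩
    · rw [hgb] at h1; simp at h1
    · rw [hgb] at h2
      simp only [List.tail_cons] at h2
      exact ⟨c, by rw [h2]⟩
  obtain ⟨c0, h0⟩ := key false
  obtain ⟨c1, h1⟩ := key true
  have hne : c0 ≠ c1 := by
    intro h
    rw [← h, ← h0] at h1
    have := (g : Perm (List Bool)).injective h1
    simp at this
  rw [h0]
  cases a
  · rw [h0]; cases c0 <;> simp
  · rw [h1]; cases c0 <;> cases c1 <;> simp_all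

theorem sg_mul (g h : FA) (v : List Bool) :
    sg ((g : Perm (List Bool)) * h) v = sg g ((h : Perm (List Bool)) v) + sg h v := by
  unfold sg
  rw [Perm.mul_apply, FA_cons h false v, FA_cons g]
  rcases hb : (decide (((h : Perm (List Bool)) (false :: v)).head? = some true)) with _ | _ <;>
  rcases hc : (decide (((g : Perm (List Bool)) (false :: (h : Perm (List Bool)) v)).head? = some true)) with _ | _ <;>
  simp_all <;> decide

theorem sg_aut (s : List Bool → Bool) (v : List Bool) : sg (aut s) v = if s v then 1 else 0 := by
  unfold sg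
  rw [aut_apply, fwd]
  simp

/-- the level `i` -/
noncomputable def L (i : ℕ) : Finset (List Bool) := (List.finite_length_eq Bool i).toFinset

theorem mem_L (i : ℕ) (v : List Bool) : v ∈ L i ↔ v.length = i := by
  simp [L]

/-- level sign -/
noncomputable def sig (i : ℕ) (g : Perm (List Bool)) : ZMod 2 := ∑ v ∈ L i, sg g v

theorem sig_mul (i : ℕ) (g h : FA) :
    sig i ((g : Perm (List Bool)) * h) = sig i g + sig i h := by
  unfold sig
  simp_rw [sg_mul]
  rw [Finset.sum_add_distrib]
  congr 1
  apply Finset.sum_equiv (h : Perm (List Bool))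
  · intro v
    rw [mem_L, mem_L, FA_len]
  · intro v _
    rfl

theorem sig_finite (A : Set ℕ) [DecidablePred (· ∈ A)] (g : FA) :
    (Function.support fun i => if i ∈ A then sig i g else 0).Finite := by
  obtain ⟨N, hN⟩ := g.2.2.2
  apply (Set.finite_lt_nat N).subset
  intro i hi
  by_contra hc
  apply hi
  have hc' : N ≤ i := not_lt.1 hc
  have : sig i g = 0 := by
    apply Finset.sum_eq_zero
    intro v hv
    rw [mem_L] at hv
    unfold sg
    rw [hN false v (by omega)]
    simp
  simp [this]

open Classical in
/-- the character attached to a set of levels -/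
noncomputable def chi (A : Set ℕ) : FA →* Multiplicative (ZMod 2) where
  toFun g := Multiplicative.ofAdd (∑ᶠ i, if i ∈ A then sig i g else 0)
  map_one' := by
    rw [← ofAdd_zero]
    congr 1
    have : ∀ i, sig i ((1 : FA) : Perm (List Bool)) = 0 := by
      intro i
      apply Finset.sum_eq_zero
      intro v _
      simp [sg]
    have h2 : (fun i => if i ∈ A then sig i ((1 : FA) : Perm (List Bool)) else 0) = fun _ => (0 : ZMod 2) := by
      funext i
      rw [this i]; simp
    rw [h2]
    exact finsum_zero
  map_mul' g h := by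
    rw [← ofAdd_add]
    congr 1
    rw [← finsum_add_distrib (sig_finite A g) (sig_finite A h)]
    apply finsum_congr
    intro i
    split_ifs with h1
    · rw [← sig_mul]; rfl
    · simp

/-- the switch at the vertex `u` -/
def sw (u : List Bool) : List Bool → Bool := fun v => decide (v = u)

theorem sw_mem (u : List Bool) : aut (sw u) ∈ FA := by
  apply aut_mem
  refine ⟨u.length + 1, fun v hv => ?_⟩
  unfold sw
  simp only [decide_eq_false_iff_not]
  rintro rfl
  omega

theorem fwd_sw (u v : List Bool) (h : v.length ≤ u.length) : fwd (sw u) v = v := by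
  induction v with
  | nil => rfl
  | cons a v ih =>
    have : sw u v = false := by
      unfold sw
      simp only [decide_eq_false_iff_not]
      rintro rfl
      simp at h
    rw [fwd, this, Bool.xor_false, ih (by simp at h; omega)]

theorem sig_sw (u : List Bool) (i : ℕ) : sig i (aut (sw u)) = if i = u.length then 1 else 0 := by
  unfold sig
  simp_rw [sg_aut]
  split_ifs with h
  · rw [Finset.sum_eq_single u]
    · simp [sw]
    · intro b _ hb
      simp [sw, hb]
    · intro hu
      exact absurd ((mem_L i u).2 h.symm) hu
  · apply Finset.sum_eq_zero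
    intro v hv
    rw [mem_L] at hv
    have : v ≠ u := by rintro rfl; exact h hv.symm
    simp [sw, this]

open Classical in
theorem chi_sw (A : Set ℕ) (u : List Bool) :
    chi A ⟨aut (sw u), sw_mem u⟩ = Multiplicative.ofAdd (if u.length ∈ A then (1 : ZMod 2) else 0) := by
  change Multiplicative.ofAdd (∑ᶠ i, if i ∈ A then sig i (aut (sw u)) else 0) = _
  congr 1
  rw [finsum_eq_single _ u.length]
  · simp [sig_sw]
  · intro i hi
    simp [sig_sw, hi]

/-- level stabilizer as a kernel -/
def levHom (n : ℕ) : FA →* Perm {v : List Bool // v.length ≤ n} where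
  toFun g := Perm.subtypePerm (g : Perm (List Bool)) (fun x => by rw [FA_len])
  map_one' := by ext; rfl
  map_mul' g h := by ext; rfl

def St (n : ℕ) : Subgroup FA := (levHom n).ker

theorem mem_St {n : ℕ} {g : FA} : g ∈ St n ↔ ∀ v : List Bool, v.length ≤ n → (g : Perm (List Bool)) v = v := by
  unfold St
  rw [MonoidHom.mem_ker]
  constructor
  · intro h v hv
    have := congrArg (fun (f : Perm {v : List Bool // v.length ≤ n}) => ((f ⟨v, hv⟩ : {v : List Bool // v.length ≤ n}) : List Bool)) h
    exact this
  · intro h
    ext ⟨v, hv⟩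
    have := h v hv
    simp [levHom, this]

instance finW (n : ℕ) : Finite {v : List Bool // v.length ≤ n} :=
  (List.finite_length_le Bool n).to_subtype

instance St_fi (n : ℕ) : (St n).FiniteIndex := by
  unfold St
  infer_instance

instance St_normal (n : ℕ) : (St n).Normal := by
  unfold St
  infer_instance

theorem St_anti {m n : ℕ} (h : m ≤ n) : St n ≤ St m := by
  intro g hg
  rw [mem_St] at hg ⊢
  exact fun v hv => hg v (le_trans hv h)

/-- the rigid stabilizer generators -/
def Rset (n : ℕ) : Set FA := {g : FA | ∃ v : List Bool, v.length = n ∧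
          ∀ w : List Bool, (∀ k : ℕ, List.tail^[k] w ≠ v) → g • w = w}

theorem tail_iter (g : FA) (k : ℕ) (w : List Bool) :
    List.tail^[k] ((g : Perm (List Bool)) w) = (g : Perm (List Bool)) (List.tail^[k] w) := by
  induction k generalizing w with
  | zero => rfl
  | succ k ih => rw [Function.iterate_succ_apply, Function.iterate_succ_apply, FA_tail, ih]

/-- below `v` -/
def Bel (v w : List Bool) : Prop := ∃ k : ℕ, List.tail^[k] w = v

theorem Bel_iff {n : ℕ} {g : FA} (hg : g ∈ St n) {v : List Bool} (hv : v.length = n) (w : List Bool) :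
    Bel v ((g : Perm (List Bool)) w) ↔ Bel v w := by
  have hgv : (g : Perm (List Bool)) v = v := mem_St.1 hg v hv.le
  unfold Bel
  refine exists_congr fun k => ?_
  rw [tail_iter]
  constructor
  · intro h
    exact (g : Perm (List Bool)).injective (by rw [h, hgv])
  · intro h
    rw [h, hgv]

theorem Bel_tail {v w : List Bool} (h : Bel v w.tail) : Bel v w := by
  obtain ⟨k, hk⟩ := h
  exact ⟨k + 1, by rw [Function.iterate_succ_apply, hk]⟩

theorem Bel_of_ne {v w : List Bool} (h : Bel v w) (hne : w ≠ v) : Bel v w.tail := by
  obtain ⟨k, hk⟩ := h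
  cases k with
  | zero => exact absurd hk hne
  | succ k => exact ⟨k, by rw [← hk, Function.iterate_succ_apply]⟩

open Classical in
theorem exists_piece {n : ℕ} {g : FA} (hg : g ∈ St n) {v : List Bool} (hv : v.length = n) :
    ∃ p : FA, p ∈ St n ∧ (∀ w, Bel v w → (p : Perm (List Bool)) w = (g : Perm (List Bool)) w) ∧
      (∀ w, ¬ Bel v w → (p : Perm (List Bool)) w = w) := by
  have hgv : (g : Perm (List Bool)) v = v := mem_St.1 hg v hv.le
  let q : Perm (List Bool) := Perm.ofSubtype (p := Bel v)
    (Perm.subtypePerm (g : Perm (List Bool)) (fun x => Bel_iff hg hv x))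
  have q1 : ∀ w, Bel v w → q w = (g : Perm (List Bool)) w := by
    intro w hw
    simp only [q]
    rw [Perm.ofSubtype_apply_of_mem _ hw]
    rfl
  have q2 : ∀ w, ¬ Bel v w → q w = w := by
    intro w hw
    simp only [q]
    rw [Perm.ofSubtype_apply_of_not_mem _ hw]
  have hq : q ∈ FA := by
    obtain ⟨g1, g2, N, g3⟩ := g.2
    refine ⟨fun w => ?_, fun w => ?_, max N n, fun a u hu => ?_⟩
    · by_cases h : Bel v w
      · rw [q1 w h, g1]
      · rw [q2 w h]
    · by_cases h : Bel v w
      · by_cases h' : Bel v w.tail
        · rw [q1 w h, q1 _ h', g2]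
        · have : w = v := by
            by_contra hne
            exact h' (Bel_of_ne h hne)
          rw [q1 w h, q2 _ h', this, hgv]
      · rw [q2 w h, q2 _ (fun h' => h (Bel_tail h'))]
    · have hne : a :: u ≠ v := by
        intro h
        rw [← h] at hv
        have : n ≤ u.length := le_trans (le_max_right _ _) hu
        simp at hv; omega
      by_cases h : Bel v (a :: u)
      · have h' : Bel v u := Bel_of_ne h hne
        rw [q1 _ h, q1 _ h', g3 a u (le_trans (le_max_left _ _) hu)]
      · have h3 : q u = u := q2 u (fun h' => h (Bel_tail (w := a :: u) h'))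
        rw [q2 _ h, h3]
  refine ⟨⟨q, hq⟩, ?_, q1, q2⟩
  rw [mem_St]
  intro w hw
  by_cases h : Bel v w
  · exact (q1 w h).trans (mem_St.1 hg w hw)
  · exact q2 w h

theorem St_le_aux {n : ℕ} (S : Finset (List Bool)) : (∀ v ∈ S, v.length = n) → ∀ g : FA, g ∈ St n →
    (∀ w, (∀ v ∈ S, ¬ Bel v w) → (g : Perm (List Bool)) w = w) → g ∈ Subgroup.closure (Rset n) := by
  classical
  induction S using Finset.induction_on with
  | empty =>
    intro _ g _ h
    have : g = 1 := by
      apply Subtype.ext
      ext1 w
      exact h w (by simp)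
    rw [this]
    exact Subgroup.one_mem _
  | insert v S hvS ih =>
    intro hS g hg h
    have hv : v.length = n := hS v (Finset.mem_insert_self v S)
    obtain ⟨p, hp, p1, p2⟩ := exists_piece hg hv
    have hpR : p ∈ Subgroup.closure (Rset n) := by
      apply Subgroup.subset_closure
      exact ⟨v, hv, fun w hw => p2 w (fun ⟨k, hk⟩ => hw k hk)⟩
    have h2 : p⁻¹ * g ∈ Subgroup.closure (Rset n) := by
      apply ih (fun w hw => hS w (Finset.mem_insert_of_mem hw)) _
        (Subgroup.mul_mem _ (Subgroup.inv_mem _ hp) hg)
      intro w hw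
      change ((p : Perm (List Bool)))⁻¹ ((g : Perm (List Bool)) w) = w
      rw [Perm.inv_eq_iff_eq]
      by_cases hb : Bel v w
      · rw [p1 w hb]
      · rw [p2 w hb]
        apply h
        intro u hu
        rcases Finset.mem_insert.1 hu with rfl | hu
        · exact hb
        · exact hw u hu
    have : g = p * (p⁻¹ * g) := by group
    rw [this]
    exact Subgroup.mul_mem _ hpR h2

theorem Bel_of_le {n : ℕ} {w : List Bool} (h : n ≤ w.length) : ∃ v : List Bool, v.length = n ∧ Bel v w := by
  refine ⟨List.tail^[w.length - n] w, ?_, ⟨_, rfl⟩⟩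
  have : ∀ k : ℕ, (List.tail^[k] w).length = w.length - k := by
    intro k
    induction k with
    | zero => rfl
    | succ k ih => rw [Function.iterate_succ_apply', List.length_tail, ih]; omega
  rw [this]; omega

theorem St_le (n : ℕ) : St n ≤ Subgroup.closure (Rset n) := by
  intro g hg
  apply St_le_aux (L n) (fun v hv => (mem_L n v).1 hv) g hg
  intro w hw
  by_cases h : n ≤ w.length
  · obtain ⟨v, hv, hb⟩ := Bel_of_le h
    exact absurd hb (hw v ((mem_L n v).2 hv))
  · exact mem_St.1 hg w (by omega)

theorem fwd_congr (s t : List Bool → Bool) (v : List Bool) (h : ∀ u : List Bool, u.length < v.length → s u = t u) :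
    fwd s v = fwd t v := by
  induction v with
  | nil => rfl
  | cons a v ih =>
    rw [fwd, fwd, h v (by simp), ih]
    intro u hu
    apply h
    simp; omega

theorem trans_aux (v w : List Bool) (h : v.length = w.length) :
    ∃ s : List Bool → Bool, (∀ u : List Bool, v.length ≤ u.length → s u = false) ∧ fwd s v = w := by
  induction v generalizing w with
  | nil =>
    refine ⟨fun _ => false, fun _ _ => rfl, ?_⟩
    rw [fwd]
    exact (List.length_eq_zero_iff.1 h.symm).symm
  | cons a v ih =>
    cases w with
    | nil => simp at h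
    | cons b w =>
      obtain ⟨s, hs, hw⟩ := ih w (by simpa using h)
      refine ⟨fun u => if u.length = v.length then xor a b else s u, ?_, ?_⟩
      · intro u hu
        simp only [List.length_cons] at hu
        have : u.length ≠ v.length := by omega
        simp only [this, if_false]
        exact hs u (by omega)
      · rw [fwd, fwd_congr _ s v, hw]
        · simp
        · intro u hu
          have : u.length ≠ v.length := by omega
          simp [this]

end Pool.Agent.W344.Branch
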