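import Mathlib

set_option autoImplicit false

/-! The lattices of locally closed transformation monoids and of locally closed permutation groups
on a set. -/

universe u

namespace Pool.Agent.W344.LocalLat

open Set

/-- the topology of pointwise convergence on `X^X`: the product topology, `X` being discrete -/
abbrev ptTop (X : Type u) : TopologicalSpace (X → X) :=
  @Pi.topologicalSpace X (fun _ => X) (fun _ => ⊥)

/-- local monoids: transformation monoids on `X` that are closed in `X^X` -/
def LocalMonoid (X : Type u) : Type u :=
  {M : Submonoid (Function.End X) // @IsClosed (X → X) (ptTop X) {f : X → X | f ∈ M}}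

/-- the local monoids are ordered by inclusion -/
instance (X : Type u) : PartialOrder (LocalMonoid X) :=
  inferInstanceAs (PartialOrder {M : Submonoid (Function.End X) //
    @IsClosed (X → X) (ptTop X) {f : X → X | f ∈ M}})

theorem memInfM {X : Type u} (s : Set (LocalMonoid X)) (f : Function.End X) :
    f ∈ (⨅ M ∈ s, M.1 : Submonoid (Function.End X)) ↔ ∀ M ∈ s, f ∈ M.1 := by
  simp only [Submonoid.mem_iInf]

/-- intersections of local monoids are local monoids -/
instance (X : Type u) : InfSet (LocalMonoid X) where
  sInf s := ⟨⨅ M ∈ s, M.1, by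
    have : {f : X → X | f ∈ (⨅ M ∈ s, M.1 : Submonoid (Function.End X))} =
        ⋂ M ∈ s, {f : X → X | f ∈ M.1} := by
      ext f
      simp only [Set.mem_iInter]
      exact memInfM s f
    rw [this]
    let _ := ptTop X
    exact isClosed_biInter fun M _ => M.2⟩

/-- the complete lattice of local monoids -/
instance (X : Type u) : CompleteLattice (LocalMonoid X) :=
  completeLatticeOfInf _ (fun s => by
    constructor
    · intro M hM
      change (⨅ M ∈ s, M.1 : Submonoid (Function.End X)) ≤ M.1
      exact iInf₂_le M hM
    · intro N hN
      change N.1 ≤ (⨅ M ∈ s, M.1 : Submonoid (Function.End X))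
      exact le_iInf₂ fun M hM => hN hM)

/-- the topology of `Sym(X)`: the subspace topology from `X^X` -/
abbrev symTop (X : Type u) : TopologicalSpace (Equiv.Perm X) :=
  TopologicalSpace.induced (fun g : Equiv.Perm X => (g : X → X)) (ptTop X)

/-- locally closed permutation groups on `X` -/
def LocalGroup (X : Type u) : Type u :=
  {G : Subgroup (Equiv.Perm X) // @IsClosed (Equiv.Perm X) (symTop X) {g | g ∈ G}}

/-- the locally closed permutation groups are ordered by inclusion -/
instance (X : Type u) : PartialOrder (LocalGroup X) :=
  inferInstanceAs (PartialOrder {G : Subgroup (Equiv.Perm X) //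
    @IsClosed (Equiv.Perm X) (symTop X) {g | g ∈ G}})

theorem memInfG {X : Type u} (s : Set (LocalGroup X)) (f : Equiv.Perm X) :
    f ∈ (⨅ G ∈ s, G.1 : Subgroup (Equiv.Perm X)) ↔ ∀ G ∈ s, f ∈ G.1 := by
  simp only [Subgroup.mem_iInf]

/-- intersections of locally closed permutation groups are locally closed -/
instance (X : Type u) : InfSet (LocalGroup X) where
  sInf s := ⟨⨅ G ∈ s, G.1, by
    have : {g : Equiv.Perm X | g ∈ (⨅ G ∈ s, G.1 : Subgroup (Equiv.Perm X))} =
        ⋂ G ∈ s, {g : Equiv.Perm X | g ∈ G.1} := by
      ext f
      simp only [Set.mem_iInter]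
      exact memInfG s f
    rw [this]
    let _ := symTop X
    exact isClosed_biInter fun G _ => G.2⟩

/-- the complete lattice of locally closed permutation groups -/
instance (X : Type u) : CompleteLattice (LocalGroup X) :=
  completeLatticeOfInf _ (fun s => by
    constructor
    · intro M hM
      change (⨅ M ∈ s, M.1 : Subgroup (Equiv.Perm X)) ≤ M.1
      exact iInf₂_le M hM
    · intro N hN
      change N.1 ≤ (⨅ M ∈ s, M.1 : Subgroup (Equiv.Perm X))
      exact le_iInf₂ fun M hM => hN hM)

end Pool.Agent.W344.LocalLat
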