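import Mathlib
import Pool.Agent.W344.LocalLatDef

set_option autoImplicit false

/-! Lines in the plane over the field of 2-adic numbers give sublattices of the lattices of local
monoids and of locally closed permutation groups. -/

universe u v

namespace Pool.Agent.W344.LocalLat

open Set Filter Topology

/-! ### the plane over `ℚ_[2]` -/

abbrev K : Type := ℚ_[2]

/-- the ball of radius `2^{-n}` -/
noncomputable def U (n : ℕ) : AddSubgroup (K × K) where
  carrier := {q | ‖q.1‖ ≤ (1 / 2 : ℝ) ^ n ∧ ‖q.2‖ ≤ (1 / 2 : ℝ) ^ n}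
  zero_mem' := by
    constructor <;> simp
  add_mem' := by
    rintro a b ⟨h1, h2⟩ ⟨h3, h4⟩
    exact ⟨(Padic.nonarchimedean _ _).trans (max_le h1 h3),
      (Padic.nonarchimedean _ _).trans (max_le h2 h4)⟩
  neg_mem' := by
    rintro a ⟨h1, h2⟩
    exact ⟨by simpa using h1, by simpa using h2⟩

theorem mem_U {n : ℕ} {q : K × K} : q ∈ U n ↔ ‖q‖ ≤ (1 / 2 : ℝ) ^ n := by
  rw [Prod.norm_def, max_le_iff]; rfl

theorem isClosed_U (n : ℕ) : IsClosed {q : K × K | q ∈ U n} := by
  simp_rw [mem_U]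
  exact isClosed_le continuous_norm continuous_const

/-- the set acted on -/
abbrev X0 : Type := Σ n : ℕ, (K × K) ⧸ U n

instance (n : ℕ) : Countable ((K × K) ⧸ U n) := by
  let f : ℚ × ℚ → (K × K) ⧸ U n := fun r => QuotientAddGroup.mk ((r.1 : K), (r.2 : K))
  have hf : Function.Surjective f := by
    intro q
    obtain ⟨⟨x, y⟩, rfl⟩ := QuotientAddGroup.mk_surjective q
    obtain ⟨r, hr⟩ := Padic.rat_dense (p := 2) x (ε := (1 / 2 : ℝ) ^ n) (by positivity)
    obtain ⟨s, hs⟩ := Padic.rat_dense (p := 2) y (ε := (1 / 2 : ℝ) ^ n) (by positivity)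
    refine ⟨(r, s), ?_⟩
    simp only [f]
    rw [QuotientAddGroup.eq]
    refine ⟨?_, ?_⟩
    · change ‖-(r : K) + x‖ ≤ _
      rw [neg_add_eq_sub]; exact hr.le
    · change ‖-(s : K) + y‖ ≤ _
      rw [neg_add_eq_sub]; exact hs.le
  exact hf.countable

/-- translation -/
noncomputable def act (g : K × K) (x : X0) : X0 := ⟨x.1, (QuotientAddGroup.mk g : (K × K) ⧸ U x.1) + x.2⟩

theorem act_zero : act 0 = id := by
  funext ⟨n, x⟩
  simp [act]

theorem act_add (g h : K × K) (x : X0) : act (g + h) x = act g (act h x) := by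
  obtain ⟨n, x⟩ := x
  simp only [act]
  congr 1
  rw [QuotientAddGroup.mk_add, add_assoc]
  rfl

theorem act_base {g h : K × K} {n : ℕ} : act g ⟨n, 0⟩ = act h ⟨n, 0⟩ ↔ g - h ∈ U n := by
  simp only [act, add_zero]
  rw [Sigma.mk.injEq]
  simp only [heq_eq_eq, true_and]
  rw [QuotientAddGroup.eq, neg_add_eq_sub, ← neg_sub, neg_mem_iff]

theorem eq_zero_of_mem {g : K × K} (h : ∀ n, g ∈ U n) : g = 0 := by
  have h1 : Tendsto (fun n : ℕ => (1 / 2 : ℝ) ^ n) atTop (𝓝 0) :=
    tendsto_pow_atTop_nhds_zero_of_lt_one (by norm_num) (by norm_num)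
  have h2 : ‖g‖ ≤ 0 := ge_of_tendsto' h1 fun n => mem_U.1 (h n)
  exact norm_le_zero_iff.1 h2

theorem act_inj {g h : K × K} (H : act g = act h) : g = h := by
  rw [← sub_eq_zero]
  apply eq_zero_of_mem
  intro n
  rw [← act_base, H]

section transport

variable {X : Type u} (e : X ≃ X0)

/-- transported translation -/
noncomputable def actX (g : K × K) : X → X := fun x => e.symm (act g (e x))

theorem actX_zero : actX e 0 = id := by
  funext x
  simp [actX, act_zero]

theorem actX_add (g h : K × K) : actX e (g + h) = actX e g ∘ actX e h := by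
  funext x
  simp [actX, act_add]

theorem actX_inj {g h : K × K} (H : actX e g = actX e h) : g = h := by
  apply act_inj
  funext y
  have := congrFun H (e.symm y)
  simpa [actX] using this

theorem actX_closed (S : Set (K × K)) (hS : IsClosed S) :
    @IsClosed (X → X) (ptTop X) {f : X → X | ∃ g ∈ S, actX e g = f} := by
  let _ : TopologicalSpace X := ⊥
  have _ : DiscreteTopology X := ⟨rfl⟩
  change @IsClosed (X → X) Pi.topologicalSpace {f : X → X | ∃ g ∈ S, actX e g = f}
  apply isClosed_of_closure_subset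
  intro f hf
  have key : ∀ F : Finset X, ∃ g ∈ S, ∀ x ∈ F, actX e g x = f x := by
    intro F
    have hopen : IsOpen {h : X → X | ∀ x ∈ F, h x = f x} := by
      have : {h : X → X | ∀ x ∈ F, h x = f x} = ⋂ x ∈ F, (fun h : X → X => h x) ⁻¹' {f x} := by
        ext h; simp
      rw [this]
      exact isOpen_biInter_finset fun x _ => (isOpen_discrete _).preimage (continuous_apply x)
    obtain ⟨h, h1, g, hg, h2⟩ := mem_closure_iff.1 hf _ hopen (fun x _ => rfl)
    refine ⟨g, hg, fun x hx => ?_⟩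
    rw [h2]; exact h1 x hx
  classical
  choose G hG hGF using fun n : ℕ => key ((Finset.range (n + 1)).image fun k => e.symm ⟨k, 0⟩)
  have h3 : ∀ n k : ℕ, k ≤ n → act (G n) ⟨k, 0⟩ = e (f (e.symm ⟨k, 0⟩)) := by
    intro n k hk
    have := hGF n (e.symm ⟨k, 0⟩) (Finset.mem_image.2 ⟨k, Finset.mem_range.2 (by omega), rfl⟩)
    rw [← this]
    simp [actX]
  have h4 : ∀ n m : ℕ, n ≤ m → G m - G n ∈ U n := by
    intro n m hnm
    rw [← act_base, h3 m n hnm, h3 n n le_rfl]
  have hc : CauchySeq G := by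
    apply Metric.cauchySeq_iff'.2
    intro ε hε
    obtain ⟨N, hN⟩ := exists_pow_lt_of_lt_one hε (by norm_num : (1 / 2 : ℝ) < 1)
    refine ⟨N, fun n hn => ?_⟩
    rw [dist_eq_norm]
    exact lt_of_le_of_lt (mem_U.1 (h4 N n hn)) hN
  obtain ⟨g, hg⟩ := cauchySeq_tendsto_of_complete hc
  have hgS : g ∈ S := hS.mem_of_tendsto hg (Eventually.of_forall hG)
  have h5 : ∀ n, g - G n ∈ U n := by
    intro n
    have h6 : Tendsto (fun m => G m - G n) atTop (𝓝 (g - G n)) := hg.sub_const _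
    exact (isClosed_U n).mem_of_tendsto h6 (eventually_atTop.2 ⟨n, fun m hm => h4 n m hm⟩)
  have h7 : ∀ n : ℕ, act g ⟨n, 0⟩ = e (f (e.symm ⟨n, 0⟩)) := by
    intro n
    rw [← h3 n n le_rfl, act_base]
    exact h5 n
  refine ⟨g, hgS, ?_⟩
  funext x
  obtain ⟨g', hg', h8⟩ := key {x, e.symm ⟨(e x).1, 0⟩}
  have h9 := h8 x (by simp)
  have h10 := h8 (e.symm ⟨(e x).1, 0⟩) (by simp)
  rw [← h9]
  simp only [actX]
  congr 1
  have h11 : act g' ⟨(e x).1, 0⟩ = act g ⟨(e x).1, 0⟩ := by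
    rw [h7, ← h10]
    simp [actX]
  have h12 : g' - g ∈ U (e x).1 := act_base.1 h11
  have h13 : (QuotientAddGroup.mk g : (K × K) ⧸ U (e x).1) = QuotientAddGroup.mk g' := by
    rw [QuotientAddGroup.eq, neg_add_eq_sub]; exact h12
  simp only [act, h13]

/-- the local monoid of translations by the elements of a closed subgroup of the plane -/
noncomputable def monOf (A : AddSubgroup (K × K)) (hA : IsClosed (A : Set (K × K))) : LocalMonoid X :=
  ⟨{ carrier := {f : X → X | ∃ g ∈ (A : Set (K × K)), actX e g = f}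
     one_mem' := ⟨0, A.zero_mem, actX_zero e⟩
     mul_mem' := by
      rintro _ _ ⟨g, hg, rfl⟩ ⟨h, hh, rfl⟩
      exact ⟨g + h, A.add_mem hg hh, actX_add e g h⟩ }, actX_closed e _ hA⟩

theorem mem_monOf {A : AddSubgroup (K × K)} {hA : IsClosed (A : Set (K × K))} {f : Function.End X} :
    f ∈ (monOf e A hA).1 ↔ ∃ g ∈ A, actX e g = f := Iff.rfl

/-- translations as permutations -/
noncomputable def actP (g : K × K) : Equiv.Perm X where
  toFun := actX e g
  invFun := actX e (-g)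
  left_inv x := by
    have := congrFun (actX_add e (-g) g) x
    rw [neg_add_cancel, actX_zero] at this
    exact this.symm
  right_inv x := by
    have := congrFun (actX_add e g (-g)) x
    rw [add_neg_cancel, actX_zero] at this
    exact this.symm

theorem actP_zero : actP e 0 = 1 := by
  ext x
  exact congrFun (actX_zero e) x

theorem actP_add (g h : K × K) : actP e (g + h) = actP e g * actP e h := by
  ext x
  exact congrFun (actX_add e g h) x

theorem actP_inj {g h : K × K} (H : actP e g = actP e h) : g = h := by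
  apply actX_inj e
  exact congrArg (fun f : Equiv.Perm X => (f : X → X)) H

theorem actP_neg (g : K × K) : actP e (-g) = (actP e g)⁻¹ := by
  rw [eq_inv_iff_mul_eq_one, ← actP_add, neg_add_cancel, actP_zero]

theorem actP_closed (S : Set (K × K)) (hS : IsClosed S) :
    @IsClosed (Equiv.Perm X) (symTop X) {f : Equiv.Perm X | ∃ g ∈ S, actP e g = f} := by
  apply (@isClosed_induced_iff (Equiv.Perm X) (X → X) (ptTop X) _ _).2
  refine ⟨_, actX_closed e S hS, ?_⟩
  ext f
  constructor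
  · rintro ⟨g, hg, h⟩
    exact ⟨g, hg, Equiv.coe_fn_injective h⟩
  · rintro ⟨g, hg, rfl⟩
    exact ⟨g, hg, rfl⟩

/-- the locally closed group of translations by the elements of a closed subgroup of the plane -/
noncomputable def grOf (A : AddSubgroup (K × K)) (hA : IsClosed (A : Set (K × K))) : LocalGroup X :=
  ⟨{ carrier := {f : Equiv.Perm X | ∃ g ∈ (A : Set (K × K)), actP e g = f}
     one_mem' := ⟨0, A.zero_mem, actP_zero e⟩
     mul_mem' := by
      rintro _ _ ⟨g, hg, rfl⟩ ⟨h, hh, rfl⟩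
      exact ⟨g + h, A.add_mem hg hh, actP_add e g h⟩
     inv_mem' := by
      rintro _ ⟨g, hg, rfl⟩
      exact ⟨-g, A.neg_mem hg, actP_neg e g⟩ }, actP_closed e _ hA⟩

theorem mem_grOf {A : AddSubgroup (K × K)} {hA : IsClosed (A : Set (K × K))} {f : Equiv.Perm X} :
    f ∈ (grOf e A hA).1 ↔ ∃ g ∈ A, actP e g = f := Iff.rfl

end transport

/-! ### the sublattice of closed subgroups -/

/-- the line of slope `c` -/
def line (c : K) : AddSubgroup (K × K) where
  carrier := {q | q.2 = c * q.1}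
  zero_mem' := by simp
  add_mem' := by
    rintro a b h1 h2
    simp only [Set.mem_ofPred_eq] at h1 h2
    simp only [Set.mem_ofPred_eq, Prod.snd_add, Prod.fst_add, h1, h2]
    ring
  neg_mem' := by
    rintro a h1
    simp only [Set.mem_ofPred_eq] at h1
    simp only [Set.mem_ofPred_eq, Prod.snd_neg, Prod.fst_neg, h1]
    ring

theorem mem_line {c : K} {q : K × K} : q ∈ line c ↔ q.2 = c * q.1 := Iff.rfl

theorem line_closed (c : K) : IsClosed (line c : Set (K × K)) :=
  isClosed_eq continuous_snd (continuous_const.mul continuous_fst)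

theorem line_inf {c d : K} (h : c ≠ d) : line c ⊓ line d = ⊥ := by
  rw [eq_bot_iff]
  rintro ⟨x, y⟩ ⟨h1, h2⟩
  change y = c * x at h1
  change y = d * x at h2
  have h3 : (c - d) * x = 0 := by linear_combination h2 - h1
  have h4 : x = 0 := by
    rcases mul_eq_zero.1 h3 with h5 | h5
    · exact absurd (sub_eq_zero.1 h5) h
    · exact h5
  rw [AddSubgroup.mem_bot]
  rw [h4] at h1
  simp [h4, h1]

theorem line_sup {c d : K} (h : c ≠ d) : line c ⊔ line d = ⊤ := by
  rw [eq_top_iff]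
  rintro ⟨x, y⟩ -
  rw [AddSubgroup.mem_sup]
  have h0 : c - d ≠ 0 := sub_ne_zero.2 h
  refine ⟨((y - d * x) / (c - d), c * ((y - d * x) / (c - d))), rfl,
    ((c * x - y) / (c - d), d * ((c * x - y) / (c - d))), rfl, ?_⟩
  ext
  · change (y - d * x) / (c - d) + (c * x - y) / (c - d) = x
    field_simp
    ring
  · change c * ((y - d * x) / (c - d)) + d * ((c * x - y) / (c - d)) = y
    field_simp
    ring

theorem line_ne_bot (c : K) : line c ≠ ⊥ := by
  intro h
  have h1 : ((1 : K), c) ∈ line c := by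
    rw [mem_line]; simp
  rw [h, AddSubgroup.mem_bot] at h1
  exact one_ne_zero (congrArg Prod.fst h1)

theorem line_ne_top (c : K) : line c ≠ ⊤ := by
  intro h
  have h1 : ((0 : K), (1 : K)) ∈ line c := by
    rw [h]; trivial
  rw [mem_line] at h1
  simp at h1

theorem line_inj {c d : K} (h : line c = line d) : c = d := by
  by_contra hne
  have := line_inf hne
  rw [h, inf_idem] at this
  exact line_ne_bot d this

section M

variable {M : Type v} [Lattice M] [BoundedOrder M]

open Classical in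
/-- the embedding of the lattice into the lattice of closed subgroups of the plane -/
noncomputable def F (φ : {a : M // a ≠ ⊥ ∧ a ≠ ⊤} → K) (a : M) : AddSubgroup (K × K) :=
  if h0 : a = ⊥ then ⊥ else if h1 : a = ⊤ then ⊤ else line (φ ⟨a, h0, h1⟩)

theorem F_closed (φ : {a : M // a ≠ ⊥ ∧ a ≠ ⊤} → K) (a : M) : IsClosed (F φ a : Set (K × K)) := by
  unfold F
  split_ifs
  · exact isClosed_singleton
  · exact isClosed_univ
  · exact line_closed _

theorem F_spec (hanti : ∀ a b : M, a ≠ ⊥ → b ≠ ⊤ → a ≤ b → a = b)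
    (φ : {a : M // a ≠ ⊥ ∧ a ≠ ⊤} → K) (hφ : Function.Injective φ) :
    (∃ a : M, a ≠ ⊥ ∧ a ≠ ⊤) →
    Function.Injective (F φ) ∧ (∀ a b, F φ (a ⊓ b) = F φ a ⊓ F φ b) ∧
      ∀ a b, F φ (a ⊔ b) = F φ a ⊔ F φ b := by
  rintro ⟨m, hm0, hm1⟩
  have hbt : (⊥ : M) ≠ ⊤ := by
    intro h
    exact hm1 (le_antisymm le_top (h ▸ bot_le))
  have Fbot : F φ (⊥ : M) = ⊥ := by unfold F; simp
  have Ftop : F φ (⊤ : M) = ⊤ := by unfold F; rw [dif_neg hbt.symm, dif_pos rfl]
  have Fmid : ∀ (a : M) (h0 : a ≠ ⊥) (h1 : a ≠ ⊤), F φ a = line (φ ⟨a, h0, h1⟩) := by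
    intro a h0 h1
    unfold F; rw [dif_neg h0, dif_neg h1]
  have hbt' : (⊥ : AddSubgroup (K × K)) ≠ ⊤ := by
    intro h
    exact line_ne_top 0 (le_antisymm le_top (h ▸ bot_le))
  have hinfmid : ∀ (a b : M) (_ : a ≠ ⊤) (_ : b ≠ ⊤), a ≠ b → a ⊓ b = ⊥ := by
    intro a b ha1 hb1 hne
    by_contra hc
    have h1 := hanti (a ⊓ b) a hc ha1 inf_le_left
    have h2 := hanti (a ⊓ b) b hc hb1 inf_le_right
    exact hne (h1.symm.trans h2)
  have hsupmid : ∀ (a b : M) (_ : a ≠ ⊥) (_ : b ≠ ⊥), a ≠ b → a ⊔ b = ⊤ := by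
    intro a b ha1 hb1 hne
    by_contra hc
    have h1 := hanti a (a ⊔ b) ha1 hc le_sup_left
    have h2 := hanti b (a ⊔ b) hb1 hc le_sup_right
    exact hne (h1.trans h2.symm)
  have Finj : Function.Injective (F φ) := by
    intro a b hab
    by_cases ha0 : a = ⊥
    · by_cases hb0 : b = ⊥
      · rw [ha0, hb0]
      · by_cases hb1 : b = ⊤
        · rw [ha0, hb1, Fbot, Ftop] at hab; exact absurd hab hbt'
        · rw [ha0, Fbot, Fmid b hb0 hb1] at hab; exact absurd hab.symm (line_ne_bot _)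
    · by_cases ha1 : a = ⊤
      · by_cases hb0 : b = ⊥
        · rw [ha1, hb0, Fbot, Ftop] at hab; exact absurd hab.symm hbt'
        · by_cases hb1 : b = ⊤
          · rw [ha1, hb1]
          · rw [ha1, Ftop, Fmid b hb0 hb1] at hab; exact absurd hab.symm (line_ne_top _)
      · by_cases hb0 : b = ⊥
        · rw [hb0, Fbot, Fmid a ha0 ha1] at hab; exact absurd hab (line_ne_bot _)
        · by_cases hb1 : b = ⊤
          · rw [hb1, Ftop, Fmid a ha0 ha1] at hab; exact absurd hab (line_ne_top _)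
          · rw [Fmid a ha0 ha1, Fmid b hb0 hb1] at hab
            have := hφ (line_inj hab)
            exact congrArg Subtype.val this
  refine ⟨Finj, fun a b => ?_, fun a b => ?_⟩
  · by_cases hab : a = b
    · rw [hab, inf_idem, inf_idem]
    by_cases ha0 : a = ⊥
    · rw [ha0, bot_inf_eq, Fbot, bot_inf_eq]
    by_cases hb0 : b = ⊥
    · rw [hb0, inf_bot_eq, Fbot, inf_bot_eq]
    by_cases ha1 : a = ⊤
    · rw [ha1, top_inf_eq, Ftop, top_inf_eq]
    by_cases hb1 : b = ⊤
    · rw [hb1, inf_top_eq, Ftop, inf_top_eq]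
    rw [hinfmid a b ha1 hb1 hab, Fbot, Fmid a ha0 ha1, Fmid b hb0 hb1, line_inf]
    intro h
    exact hab (congrArg Subtype.val (hφ h))
  · by_cases hab : a = b
    · rw [hab, sup_idem, sup_idem]
    by_cases ha0 : a = ⊥
    · rw [ha0, bot_sup_eq, Fbot, bot_sup_eq]
    by_cases hb0 : b = ⊥
    · rw [hb0, sup_bot_eq, Fbot, sup_bot_eq]
    by_cases ha1 : a = ⊤
    · rw [ha1, top_sup_eq, Ftop, top_sup_eq]
    by_cases hb1 : b = ⊤
    · rw [hb1, sup_top_eq, Ftop, sup_top_eq]
    rw [hsupmid a b ha0 hb0 hab, Ftop, Fmid a ha0 ha1, Fmid b hb0 hb1, line_sup]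
    intro h
    exact hab (congrArg Subtype.val (hφ h))

theorem exists_phi (hcard : Cardinal.mk {a : M // a ≠ ⊥ ∧ a ≠ ⊤} = Cardinal.continuum) :
    ∃ φ : {a : M // a ≠ ⊥ ∧ a ≠ ⊤} → K, Function.Injective φ := by
  have h1 : Cardinal.continuum.{0} ≤ Cardinal.mk K := continuum_le_cardinal_of_nontriviallyNormedField K
  have h2 : Cardinal.lift.{0} (Cardinal.mk {a : M // a ≠ ⊥ ∧ a ≠ ⊤}) ≤ Cardinal.lift.{v} (Cardinal.mk K) := by
    rw [hcard]
    have := Cardinal.lift_le.{v}.2 h1
    simpa using this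
  obtain ⟨f⟩ := Cardinal.lift_mk_le'.1 h2
  exact ⟨f, f.injective⟩

theorem exists_mid (hcard : Cardinal.mk {a : M // a ≠ ⊥ ∧ a ≠ ⊤} = Cardinal.continuum) :
    ∃ a : M, a ≠ ⊥ ∧ a ≠ ⊤ := by
  have : Cardinal.mk {a : M // a ≠ ⊥ ∧ a ≠ ⊤} ≠ 0 := by
    rw [hcard]; exact Cardinal.continuum_ne_zero
  obtain ⟨a⟩ := Cardinal.mk_ne_zero_iff.1 this
  exact ⟨a.1, a.2⟩

theorem exists_equiv (X : Type u) [Countable X] [Infinite X] : Nonempty (X ≃ X0) := by
  have : Infinite X0 := by
    apply Infinite.of_injective (fun n : ℕ => (⟨n, 0⟩ : X0))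
    intro a b h
    exact congrArg Sigma.fst h
  obtain ⟨e1⟩ := nonempty_denumerable X
  obtain ⟨e2⟩ := nonempty_denumerable X0
  exact ⟨(Denumerable.eqv X).trans (Denumerable.eqv X0).symm⟩

theorem embeds_monoid (X : Type u) [Countable X] [Infinite X]
    (hanti : ∀ a b : M, a ≠ ⊥ → b ≠ ⊤ → a ≤ b → a = b)
    (hcard : Cardinal.mk {a : M // a ≠ ⊥ ∧ a ≠ ⊤} = Cardinal.continuum) :
    ∃ f : LatticeHom M (LocalMonoid X), Function.Injective f := by
  obtain ⟨e⟩ := exists_equiv X
  obtain ⟨φ, hφ⟩ := exists_phi hcard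
  obtain ⟨h1, h2, h3⟩ := F_spec hanti φ hφ (exists_mid hcard)
  have mono : ∀ a b : M, F φ a ≤ F φ b →
      monOf e (F φ a) (F_closed φ a) ≤ monOf e (F φ b) (F_closed φ b) := by
    rintro a b hab f ⟨g, hg, rfl⟩
    exact ⟨g, hab hg, rfl⟩
  refine ⟨⟨⟨fun a => monOf e (F φ a) (F_closed φ a), fun a b => ?_⟩, fun a b => ?_⟩, ?_⟩
  · apply le_antisymm
    · rintro f ⟨g, hg, rfl⟩
      rw [h3] at hg
      obtain ⟨u, hu, w, hw, rfl⟩ := AddSubgroup.mem_sup.1 hg
      rw [actX_add]
      have m1 : (actX e u : Function.End X) ∈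
          (monOf e (F φ a) (F_closed φ a) ⊔ monOf e (F φ b) (F_closed φ b)).1 :=
        (le_sup_left : monOf e (F φ a) (F_closed φ a) ≤ _) ⟨u, hu, rfl⟩
      have m2 : (actX e w : Function.End X) ∈
          (monOf e (F φ a) (F_closed φ a) ⊔ monOf e (F φ b) (F_closed φ b)).1 :=
        (le_sup_right : monOf e (F φ b) (F_closed φ b) ≤ _) ⟨w, hw, rfl⟩
      exact Submonoid.mul_mem _ m1 m2
    · apply sup_le
      · apply mono; rw [h3]; exact le_sup_left
      · apply mono; rw [h3]; exact le_sup_right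
  · apply le_antisymm
    · apply le_inf
      · apply mono; rw [h2]; exact inf_le_left
      · apply mono; rw [h2]; exact inf_le_right
    · intro f hf
      obtain ⟨g, hg, hgf⟩ : f ∈ (monOf e (F φ a) (F_closed φ a)).1 := (inf_le_left : _ ≤ monOf e (F φ a) (F_closed φ a)) hf
      obtain ⟨g', hg', hgf'⟩ : f ∈ (monOf e (F φ b) (F_closed φ b)).1 := (inf_le_right : _ ≤ monOf e (F φ b) (F_closed φ b)) hf
      have : g = g' := actX_inj e (hgf.trans hgf'.symm)
      refine ⟨g, ?_, hgf⟩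
      change g ∈ F φ (a ⊓ b)
      rw [h2]
      exact ⟨hg, this ▸ hg'⟩
  · intro a b hab
    have hab' : monOf e (F φ a) (F_closed φ a) = monOf e (F φ b) (F_closed φ b) := hab
    apply h1
    have key : ∀ a b : M, monOf e (F φ a) (F_closed φ a) ≤ monOf e (F φ b) (F_closed φ b) → F φ a ≤ F φ b := by
      intro a b h g hg
      obtain ⟨g', hg', h4⟩ := h (show actX e g ∈ (monOf e (F φ a) (F_closed φ a)).1 from ⟨g, hg, rfl⟩)
      rw [actX_inj e h4] at hg'
      exact hg'
    exact le_antisymm (key a b hab'.le) (key b a hab'.ge)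

theorem embeds_group (X : Type u) [Countable X] [Infinite X]
    (hanti : ∀ a b : M, a ≠ ⊥ → b ≠ ⊤ → a ≤ b → a = b)
    (hcard : Cardinal.mk {a : M // a ≠ ⊥ ∧ a ≠ ⊤} = Cardinal.continuum) :
    ∃ f : LatticeHom M (LocalGroup X), Function.Injective f := by
  obtain ⟨e⟩ := exists_equiv X
  obtain ⟨φ, hφ⟩ := exists_phi hcard
  obtain ⟨h1, h2, h3⟩ := F_spec hanti φ hφ (exists_mid hcard)
  have mono : ∀ a b : M, F φ a ≤ F φ b →
      grOf e (F φ a) (F_closed φ a) ≤ grOf e (F φ b) (F_closed φ b) := by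
    rintro a b hab f ⟨g, hg, rfl⟩
    exact ⟨g, hab hg, rfl⟩
  refine ⟨⟨⟨fun a => grOf e (F φ a) (F_closed φ a), fun a b => ?_⟩, fun a b => ?_⟩, ?_⟩
  · apply le_antisymm
    · rintro f ⟨g, hg, rfl⟩
      rw [h3] at hg
      obtain ⟨u, hu, w, hw, rfl⟩ := AddSubgroup.mem_sup.1 hg
      rw [actP_add]
      refine Subgroup.mul_mem _ ?_ ?_
      · exact (le_sup_left : grOf e (F φ a) (F_closed φ a) ≤ _) ⟨u, hu, rfl⟩
      · exact (le_sup_right : grOf e (F φ b) (F_closed φ b) ≤ _) ⟨w, hw, rfl⟩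
    · apply sup_le
      · apply mono; rw [h3]; exact le_sup_left
      · apply mono; rw [h3]; exact le_sup_right
  · apply le_antisymm
    · apply le_inf
      · apply mono; rw [h2]; exact inf_le_left
      · apply mono; rw [h2]; exact inf_le_right
    · intro f hf
      obtain ⟨g, hg, hgf⟩ : f ∈ (grOf e (F φ a) (F_closed φ a)).1 := (inf_le_left : _ ≤ grOf e (F φ a) (F_closed φ a)) hf
      obtain ⟨g', hg', hgf'⟩ : f ∈ (grOf e (F φ b) (F_closed φ b)).1 := (inf_le_right : _ ≤ grOf e (F φ b) (F_closed φ b)) hf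
      have : g = g' := actP_inj e (hgf.trans hgf'.symm)
      refine ⟨g, ?_, hgf⟩
      change g ∈ F φ (a ⊓ b)
      rw [h2]
      exact ⟨hg, this ▸ hg'⟩
  · intro a b hab
    have hab' : grOf e (F φ a) (F_closed φ a) = grOf e (F φ b) (F_closed φ b) := hab
    apply h1
    have key : ∀ a b : M, grOf e (F φ a) (F_closed φ a) ≤ grOf e (F φ b) (F_closed φ b) → F φ a ≤ F φ b := by
      intro a b h g hg
      obtain ⟨g', hg', h4⟩ := h (show actP e g ∈ (grOf e (F φ a) (F_closed φ a)).1 from ⟨g, hg, rfl⟩)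
      rw [actP_inj e h4] at hg'
      exact hg'
    exact le_antisymm (key a b hab'.le) (key b a hab'.ge)

end M

end Pool.Agent.W344.LocalLat
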